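import Pool.Agent.Q103.FS.Core0
import Pool.Agent.Q144.SU.B1
import Pool.Agent.Q144.SU.Ext
import Pool.Agent.Q41.GT.Stm6
import Pool.Agent.Q209.GT.Spec

/-!
Constant cross ratios over function fields of bounded gonality.
-/

set_option autoImplicit false

namespace Pool.Agent.Run7.h830.GN

open Polynomial
open Pool.Agent.Q41.SU
open Pool.Agent.Q41.GT (crs)
open Pool.Agent.Q144.SU.B Pool.Agent.W277.UB Pool.Agent.W277.UG Pool.Agent.W277.UH

/-- the cross ratios of a large stable set over a field of bounded gonality are constant -/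
theorem const (n d : ℕ) (hd : 2 ≤ d) : ∃ B : ℕ, ∀ (k L : Type) [Field k] [CharZero k] [Field L]
    [Algebra k L] (t : L), Transcendental k t →
    FiniteDimensional (IntermediateField.adjoin k {t}) L →
    Module.finrank (IntermediateField.adjoin k {t}) L ≤ n →
    ∀ p q : L[X], p.natDegree ≤ d → q.natDegree = d → IsCoprime p q → ∀ P : Finset L,
      Stab p q P → B ≤ P.card → ∀ c ∈ crs P, IsAlgebraic k c := by
  classical
  obtain ⟨N, hN⟩ := Pool.Agent.Q103.FS.core0.{0} d n.factorial hd
  refine ⟨N + 1, ?_⟩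
  intro k L _ _ _ _ t ht hfd hn p q hp hq hco P hst hcard
  obtain ⟨k', E, _, _, _, _, _, j, t', G, _, hgal, hG, halg⟩ :=
    Pool.Agent.Q144.SU.ext.{0, 0} k L t ht hfd n hn
  have hjinj : Function.Injective j := j.injective
  have hst2 : Stab (p.map j) (q.map j) (P.image j) := by
    intro y hy
    obtain ⟨z, hz, rfl⟩ := Finset.mem_image.mp hy
    obtain ⟨e1, e2⟩ := hst z hz
    rw [eval_map_apply, eval_map_apply]
    refine ⟨(map_ne_zero j).mpr e1, ?_⟩
    rw [← map_div₀]
    exact Finset.mem_image_of_mem _ e2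
  have hcoj : IsCoprime (p.map j) (q.map j) := hco.map (Polynomial.mapRingHom j)
  have hcc : ConjConst k' (p.map j) (q.map j) d := by
    by_contra hno
    have h2 := hN k' E t' G hgal hG (p.map j) (q.map j)
      (natDegree_map_le.trans hp) (by rw [natDegree_map]; exact hq) hcoj (P.image j) hst2 hno
    rw [Finset.card_image_of_injective _ hjinj] at h2
    omega
  have hcr := Pool.Agent.Q144.SU.crc k' E d (p.map j) (q.map j) hd (natDegree_map_le.trans hp)
    (natDegree_map_le.trans hq.le) (by
      rw [natDegree_map, natDegree_map, hq]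
      exact max_eq_right hp) hcoj hcc (P.image j) hst2
  rintro _ ⟨x0, h0, x1, h1, x2, h2, x, hx, h01, h02, h12, hx2, hx0, rfl⟩
  obtain ⟨c, hc⟩ := hcr (j x0) (Finset.mem_image_of_mem _ h0) (j x1)
    (Finset.mem_image_of_mem _ h1) (j x2) (Finset.mem_image_of_mem _ h2) (j x)
    (Finset.mem_image_of_mem _ hx) (hjinj.ne h01) (hjinj.ne h02) (hjinj.ne h12)
    (hjinj.ne hx2) (hjinj.ne hx0)
  apply halg
  refine ⟨c, ?_⟩
  rw [hc, map_div₀, map_mul, map_mul, map_sub, map_sub, map_sub, map_sub]

end Pool.Agent.Run7.h830.GN
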