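import Pool.Agent.Run7.h830.GN.Lift

/-!
Every finite extension of a function field is étale over the complement of a hypersurface.
-/

set_option autoImplicit false

namespace Pool.Agent.Run7.h830.GN

open Polynomial
open Pool.Agent.W602.GT (coords val IsForm)
open Pool.Agent.TH466.QG (hz val_hz exists_den adjoin_norm)

theorem hz_hom {k : Type} [Field k] {M : ℕ} (i0 : Fin (M + 1)) (G : MvPolynomial (Fin (M + 1)) k) :
    (hz i0 G).IsHomogeneous G.totalDegree := by
  unfold hz
  refine MvPolynomial.IsHomogeneous.sum _ _ _ fun d hd => ?_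
  have h1 := (MvPolynomial.homogeneousComponent_isHomogeneous d G).mul
    ((MvPolynomial.isHomogeneous_X k i0).pow (G.totalDegree - d))
  have h2 : d + 1 * (G.totalDegree - d) = G.totalDegree := by
    have := Finset.mem_range.1 hd
    omega
  rwa [h2] at h1

/-- **Generic étaleness.** -/
theorem exists_etaleAt {F E K : Type} [Field F] [Field E] [Algebra F E] [Field K]
    [Algebra E K] [FiniteDimensional E K] [Algebra.IsSeparable E K] {M : ℕ}
    {x : Fin (M + 1) → E} (hx : x ≠ 0) (hgen : coords F x = ⊤) :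
    ∃ G : MvPolynomial (Fin (M + 1)) F, EtaleAt F K x G := by
  classical
  obtain ⟨i1, hi1'⟩ := Function.ne_iff.1 hx
  have hi1 : x i1 ≠ 0 := hi1'
  obtain ⟨θ, hθ⟩ := Field.exists_primitive_element E K
  have hint : IsIntegral E θ := Algebra.IsIntegral.isIntegral θ
  obtain ⟨a, b, hab⟩ := Algebra.IsSeparable.isSeparable E θ
  set μ := minpoly E θ with hμ
  set Θ : Finset E := μ.coeffs ∪ a.coeffs ∪ b.coeffs with hΘ
  obtain ⟨H, hH, hG⟩ := exists_den (adjoin_norm hgen hi1) Θ.finite_toSet
  have hG' : ∀ c : E, ∃ G : MvPolynomial (Fin (M + 1)) F, c ∈ Θ →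
      c * MvPolynomial.aeval (fun i => x i / x i1) H =
        MvPolynomial.aeval (fun i => x i / x i1) G := by
    intro c
    by_cases hc : c ∈ Θ
    · obtain ⟨G, h⟩ := hG c hc
      exact ⟨G, fun _ => h⟩
    · exact ⟨0, fun h => absurd h hc⟩
  choose N hN using hG'
  set t : ℕ := ∑ c ∈ Θ, (N c).totalDegree with ht
  refine ⟨MvPolynomial.X i1 ^ t * hz i1 H, ?_, t + H.totalDegree, θ, μ, a, b, ?_,
    minpoly.monic hint, hab, minpoly.aeval _ _, hθ, ?_⟩
  · change MvPolynomial.aeval x _ ≠ 0
    rw [map_mul, map_pow, MvPolynomial.aeval_X]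
    refine mul_ne_zero (pow_ne_zero _ hi1) ?_
    change val x _ ≠ 0
    rw [val_hz H hi1]
    exact mul_ne_zero (pow_ne_zero _ hi1) hH
  · have h1 := ((MvPolynomial.isHomogeneous_X F i1).pow t).mul (hz_hom i1 H)
    rwa [one_mul] at h1
  · intro c hc
    have hcΘ : c ∈ Θ := by
      rw [hΘ, Finset.mem_union, Finset.mem_union]
      tauto
    have hle : (N c).totalDegree ≤ t := Finset.single_le_sum
      (f := fun c => (N c).totalDegree) (fun _ _ => Nat.zero_le _) hcΘ
    refine ⟨1, MvPolynomial.X i1 ^ (t + H.totalDegree - (N c).totalDegree) * hz i1 (N c), ?_, ?_⟩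
    · have h1 := ((MvPolynomial.isHomogeneous_X F i1).pow
        (t + H.totalDegree - (N c).totalDegree)).mul (hz_hom i1 (N c))
      have h2 : 1 * (t + H.totalDegree - (N c).totalDegree) + (N c).totalDegree =
          1 * (t + H.totalDegree) := by omega
      rwa [h2] at h1
    · change c * (MvPolynomial.aeval x _) ^ 1 = MvPolynomial.aeval x _
      rw [pow_one, map_mul, map_pow, MvPolynomial.aeval_X, map_mul, map_pow, MvPolynomial.aeval_X]
      have h1 : MvPolynomial.aeval x (hz i1 H) = _ := val_hz H hi1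
      have h2 : MvPolynomial.aeval x (hz i1 (N c)) = _ := val_hz (N c) hi1
      rw [h1, h2, ← hN c hcΘ]
      have h3 : x i1 ^ (t + H.totalDegree - (N c).totalDegree) * x i1 ^ (N c).totalDegree =
          x i1 ^ t * x i1 ^ H.totalDegree := by
        rw [← pow_add, ← pow_add]
        congr 1
        omega
      calc c * (x i1 ^ t * (x i1 ^ H.totalDegree *
            MvPolynomial.aeval (fun i => x i / x i1) H))
          = (x i1 ^ t * x i1 ^ H.totalDegree) *
            (c * MvPolynomial.aeval (fun i => x i / x i1) H) := by ring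
        _ = _ := by
          rw [← h3]
          ring

end Pool.Agent.Run7.h830.GN
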