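import Pool.Agent.Run7.h830.GN.Main
import Pool.Agent.Q209.GT.Sub
import Pool.Agent.Q103.EC.Mxv
import Pool.Agent.Q103.SF.Alg
import Pool.Agent.Q96.HE.Fin

/-!
Curves of bounded gonality: the final form.
-/

set_option autoImplicit false

namespace Pool.Agent.Run7.h830.GN

open Polynomial FF
open Pool.Agent.Q41.SU (Stab)
open Pool.Agent.Q41.GT (crs)
open Pool.Agent.W602.GT (coords val IsForm)
open Pool.Agent.Y216 (OnVar)
open Pool.Agent.Q209.GT
open Pool.Agent.Q103.EC (ManyPrep exists_stab)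
open Pool.Agent.Q103.SF (van van_eq)
open Pool.Agent.Q271.RC (Nonconst)
open Pool.Agent.W603.LV (canDeg)
open Pool.Agent.W603.PV (pht)

theorem Gon.mono {k L : Type} [Field k] [Field L] [Algebra k L] {a b : ℕ} (h : Gon k a L)
    (hab : a ≤ b) : Gon k b L := by
  obtain ⟨t, h1, h2, h3⟩ := h
  exact ⟨t, h1, h2, h3.trans hab⟩

/-- **Curves of bounded gonality.** -/
theorem bounded (d : ℕ) (hd : 2 ≤ d) (r γ : ℕ) : ∃ B : ℕ, ∀ (k E K : Type) [Field k] [CharZero k]
    [Field E] [Algebra k E] [Field K] [Algebra k K] [Algebra E K] [IsScalarTower k E K]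
    [FiniteDimensional E K], Module.finrank E K ≤ r → ∀ p q : K[X], ManyPrep k d B p q →
    ∀ (M : ℕ) (x : Fin (M + 1) → E), x ≠ 0 → coords k x = ⊤ →
    ∃ R : MvPolynomial (Fin (M + 1)) k, IsForm R ∧ val x R ≠ 0 ∧
      ∀ (L : Type) [Field L] [Algebra k L] (v : Fin (M + 1) → L), OnVar k x v → Gon k γ L →
        val v R ≠ 0 → ∀ i j, v j ≠ 0 → IsAlgebraic k (v i / v j) := by
  obtain ⟨B, hB⟩ := const (γ * r) d hd
  refine ⟨max (3 * d + 7) B, ?_⟩
  intro k E K _ _ _ _ _ _ _ _ _ hrk p q hpq M x hx hgen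
  have : CharZero E := charZero_of_injective_algebraMap (algebraMap k E).injective
  obtain ⟨p', q', P', hp', hq', hco, hst, hcard, halg⟩ := exists_stab hd (le_max_left _ _) hpq
  obtain ⟨i1, R, D, g, hR, hxR, hmain⟩ := main_ext (by omega) hp' hq' hco hst halg hx hgen
  refine ⟨R, hR, hxR, ?_⟩
  intro L _ _ v hv hgon hvR
  obtain ⟨hv1, L', _, _, _, _, p2, q2, P2, c', hfd, hrk', hp2, hq2, hco2, hst2, hcard2, hcr, hrel⟩ :=
    hmain L v hv hvR
  obtain ⟨t, ht, htf, htr⟩ := (hgon.ext (L' := L')).mono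
    (Nat.mul_le_mul_left γ (hrk'.trans hrk))
  have hconst := hB k L' t ht htf htr p2 q2 hp2 hq2 hco2 P2 hst2
    ((le_max_right _ _).trans (hcard.trans hcard2.ge))
  have h1 : ∀ i, IsAlgebraic k (v i / v i1) := by
    intro i
    have h2 : IsAlgebraic (algebraicClosure k L') (algebraMap L L' (v i / v i1)) := by
      refine alg_of_eqn (fun j => ?_) (hrel i).1 (hrel i).2
      have h3 : MvPolynomial.aeval c' (g i j) ∈ Algebra.adjoin k (Set.range c') := by
        rw [Algebra.adjoin_range_eq_range_aeval]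
        exact ⟨_, rfl⟩
      have h4 : Algebra.adjoin k (Set.range c') ≤ (algebraicClosure k L').toSubalgebra := by
        rw [Algebra.adjoin_le_iff]
        rintro _ ⟨c, rfl⟩
        exact mem_algebraicClosure_iff.2 (hconst _ (hcr c))
      exact ⟨⟨_, h4 h3⟩, rfl⟩
    have h5 : IsAlgebraic k (algebraMap L L' (v i / v i1)) := h2.restrictScalars k
    exact (isAlgebraic_algebraMap_iff (algebraMap L L').injective).1 h5
  intro i j hj
  have h2 : v i / v j = (v i / v i1) * (v j / v i1)⁻¹ := by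
    field_simp
  rw [h2]
  exact (h1 i).mul (h1 j).inv

/-- a closed subset of a surface: the curves of bounded gonality -/
theorem finite_gon {E : Type} [Field E] [Algebra ℂ E] (htr : Algebra.trdeg ℂ E = (2 : ℕ)) {γ M : ℕ}
    {x : Fin (M + 1) → E} {R : MvPolynomial (Fin (M + 1)) ℂ} (hR : IsForm R) (hxR : val x R ≠ 0)
    (h : ∀ (L : Type) [Field L] [Algebra ℂ L] (v : Fin (M + 1) → L), OnVar ℂ x v → Gon ℂ γ L →
      val v R ≠ 0 → ∀ i j, v j ≠ 0 → IsAlgebraic ℂ (v i / v j)) :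
    {V : Set (MvPolynomial (Fin (M + 1)) ℂ) | ∃ (L : Type) (_ : Field L) (_ : Algebra ℂ L)
      (v : Fin (M + 1) → L), OnVar ℂ x v ∧ Nonconst v ∧ Gon ℂ γ L ∧ V = van v}.Finite := by
  obtain ⟨e, he⟩ := hR
  refine (Pool.Agent.Q96.HE.finite_curves htr le_rfl R he hxR).subset ?_
  rintro V ⟨L, _, _, v, hv, hnc, hgon, rfl⟩
  refine ⟨L, inferInstance, inferInstance, v, ?_, ?_, hnc, rfl⟩
  · intro G D hG hGx
    exact hv.2 G ⟨D, hG⟩ hGx
  · by_contra h0
    obtain ⟨i, j, hj, htr'⟩ := hnc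
    exact htr' (h L v hv hgon h0 i j hj)

end Pool.Agent.Run7.h830.GN
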