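import Pool.Agent.Y221.AH.Hp

/-!
The inequality of Hurwitz from above.
-/

set_option autoImplicit false

namespace Pool.Agent.Run7.h830.GN

open FF
open Pool.Agent.W603.LV Pool.Agent.W603.PV Pool.Agent.Y221.AH

variable {k L L' : Type} [Field k] [IsAlgClosed k] [CharZero k] [Field L] [Algebra k L] [IsFF k L]
  [Field L'] [Algebra k L'] [IsFF k L'] [Algebra L L'] [IsScalarTower k L L']
  [FiniteDimensional L L']

/-- **The inequality of Hurwitz** for an extension which is unramified outside `T`. -/
theorem hurwitz_le (T : Finset (Place k L)) (hT : ∀ w : Place k L', under L w ∉ T → ram L w = 1) :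
    canDeg k L' ≤ Module.finrank L L' * (canDeg k L + T.card) := by
  classical
  have hL : CharZero L := charZero_of_injective_algebraMap (algebraMap k L).injective
  obtain ⟨D, hD⟩ := exists_der (k := k) (K := L)
  obtain ⟨D', hDD'⟩ := exists_ext_der (L := L') D
  have hD' : D' ≠ 0 := by
    rintro rfl
    apply hD
    ext x
    have := hDD' x
    rw [Derivation.coe_zero, Pi.zero_apply, eq_comm, map_eq_zero] at this
    rw [this]; rfl
  set V : Finset (Place k L) := (vo_finite hD).toFinset ∪ T with hV
  have hVmem : ∀ v, vo v D ≠ 0 → v ∈ V := fun v hv => by simp [hV, hv]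
  obtain ⟨V', hV'⟩ := exists_over (L := L') V
  set X : Finset (Place k L') := (vo_finite hD').toFinset ∪ V' with hX
  have h1 := canDeg_finset hD' X fun P hP => by simp [hX, hP]
  have h2 := canDeg_finset hD V hVmem
  have h3 := sum_over (L := L') (fun v => vo v D) V hVmem X
    (fun w hw => Finset.mem_union_right _ ((hV' w).1 hw))
  have h4 := sum_over (L := L') (fun v => if v ∈ T then (1 : ℤ) else 0) T
    (fun v hv => by
      by_contra h
      exact hv (if_neg h)) X
    (fun w hw => Finset.mem_union_right _ ((hV' w).1 (Finset.mem_union_right _ hw)))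
  have h5 : ∑ v ∈ T, (if v ∈ T then (1 : ℤ) else 0) = T.card := by
    rw [Finset.sum_congr rfl fun v hv => if_pos hv, Finset.sum_const, nsmul_eq_mul, mul_one]
  have h6 : canDeg k L' = ∑ P ∈ X, ((ram L P : ℤ) - 1) - ∑ P ∈ X, (ram L P : ℤ) * vo (under L P) D := by
    rw [← Finset.sum_sub_distrib]
    have h7 : canDeg k L' = - ∑ P ∈ X, vo P D' := by rw [h1, neg_neg]
    rw [h7, ← Finset.sum_neg_distrib]
    refine Finset.sum_congr rfl fun P _ => ?_
    rw [vo_under hD hD' hDD' P]
    ring
  have h7 : ∑ P ∈ X, ((ram L P : ℤ) - 1) ≤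
      ∑ P ∈ X, (ram L P : ℤ) * (if under L P ∈ T then (1 : ℤ) else 0) := by
    refine Finset.sum_le_sum fun P _ => ?_
    split_ifs with h
    · rw [mul_one]
      linarith
    · rw [hT P h]
      simp
  rw [h3, h2] at h6
  rw [h4, h5] at h7
  rw [h6, mul_add]
  linarith

end Pool.Agent.Run7.h830.GN
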