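import Pool.Agent.Run7.h830.GN.Spec2

/-!
Lifting points of a variety to a generically finite cover.
-/

set_option autoImplicit false

namespace Pool.Agent.Run7.h830.GN

open Polynomial
open Pool.Agent.W602.GT (coords val IsForm)
open Pool.Agent.Y216 (OnVar)
open Pool.Agent.Q209.GT (lift_poly unit_ne)

/-- values of a form -/
theorem form_scale {F R : Type} [Field F] [CommRing R] [Algebra F R] {N : ℕ} (c : R)
    (x : Fin (N + 1) → R) {G : MvPolynomial (Fin (N + 1)) F} {D : ℕ} (hG : G.IsHomogeneous D) :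
    MvPolynomial.aeval (fun i => c * x i) G = c ^ D * MvPolynomial.aeval x G := by
  rw [MvPolynomial.aeval_def, MvPolynomial.aeval_def, MvPolynomial.eval₂_eq',
    MvPolynomial.eval₂_eq', Finset.mul_sum]
  refine Finset.sum_congr rfl fun α hα => ?_
  have h1 : ∑ i, α i = D := by
    have := hG (MvPolynomial.mem_support_iff.1 hα)
    rw [← this, Finsupp.weight_apply, Finsupp.sum_fintype _ _ (by simp)]
    simp
  have h2 : ∏ i, (c * x i) ^ α i = c ^ D * ∏ i, x i ^ α i := by
    rw [← h1, ← Finset.prod_pow_eq_pow_sum, ← Finset.prod_mul_distrib]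
    exact Finset.prod_congr rfl fun i _ => mul_pow _ _ _
  rw [h2]
  ring

theorem val_norm {F R : Type} [Field F] [Field R] [Algebra F R] {N : ℕ}
    (x : Fin (N + 1) → R) {i1 : Fin (N + 1)} (h : x i1 ≠ 0) {G : MvPolynomial (Fin (N + 1)) F}
    {D : ℕ} (hG : G.IsHomogeneous D) :
    val x G = x i1 ^ D * MvPolynomial.aeval (fun i => x i / x i1) G := by
  rw [← form_scale _ _ hG]
  change MvPolynomial.aeval x G = _
  congr 2
  funext i
  field_simp

/-- The extension `K` of the function field `E` of the projective variety with the generic point `x` is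
the function field of a finite étale covering of the affine open subset `{G ≠ 0}`, given by a standard
étale algebra `A[T] / (μ)`: `A` is the ring of the functions `N(x) / G(x) ^ m`, `N` a form of degree
`m deg G`; `μ`, `a`, `b` are polynomials over `A`, `μ` is monic, `a μ + b μ' = 1`, and `K` is generated by
a root `θ` of `μ`. -/
def EtaleAt (F : Type) [Field F] {E : Type} [Field E] [Algebra F E] (K : Type) [Field K]
    [Algebra E K] {M : ℕ} (x : Fin (M + 1) → E) (G : MvPolynomial (Fin (M + 1)) F) : Prop :=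
  val x G ≠ 0 ∧ ∃ (e : ℕ) (θ : K) (μ a b : E[X]), G.IsHomogeneous e ∧ μ.Monic ∧
    a * μ + b * derivative μ = 1 ∧ aeval θ μ = 0 ∧ IntermediateField.adjoin E {θ} = ⊤ ∧
    ∀ c, c ∈ μ.coeffs ∨ c ∈ a.coeffs ∨ c ∈ b.coeffs →
      ∃ (m : ℕ) (N : MvPolynomial (Fin (M + 1)) F), N.IsHomogeneous (m * e) ∧
        c * val x G ^ m = val x N

theorem gen_of {E K : Type} [Field E] [Field K] [Algebra E K] {θ : K} (hθ : IsIntegral E θ)
    (h : IntermediateField.adjoin E {θ} = ⊤) (f : K) : ∃ g : E[X], f = aeval θ g := by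
  have h1 : f ∈ IntermediateField.adjoin E {θ} := by rw [h]; exact IntermediateField.mem_top
  have h2 := IntermediateField.adjoin_simple_toSubalgebra_of_isAlgebraic hθ.isAlgebraic
  have h3 : f ∈ Algebra.adjoin E {θ} := by
    rw [← h2]
    exact h1
  rw [Algebra.adjoin_singleton_eq_range_aeval] at h3
  obtain ⟨g, hg⟩ := h3
  exact ⟨g, hg.symm⟩

variable {F E K : Type} [Field F] [Field E] [Algebra F E] [Field K] [Algebra F K]
    [Algebra E K] [IsScalarTower F E K] {M : ℕ}

theorem coords_snoc {x : Fin (M + 1) → E} {i1 : Fin (M + 1)} (hi1 : x i1 ≠ 0)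
    (hgen : coords F x = ⊤) {τ : K} (hτ : ∀ f : K, ∃ g : E[X], f = aeval τ g) :
    coords F (Fin.snoc (fun i => algebraMap E K (x i)) (τ * algebraMap E K (x i1)) :
      Fin (M + 1 + 1) → K) = ⊤ := by
  set x' : Fin (M + 1 + 1) → K :=
    Fin.snoc (fun i => algebraMap E K (x i)) (τ * algebraMap E K (x i1)) with hx'
  have hc : ∀ i : Fin (M + 1), x' i.castSucc = algebraMap E K (x i) := fun i => by
    rw [hx']
    exact Fin.snoc_castSucc (α := fun _ => K) _ _ i
  have hl : x' (Fin.last (M + 1)) = τ * algebraMap E K (x i1) := by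
    rw [hx']
    exact Fin.snoc_last (α := fun _ => K) _ _
  have hne : algebraMap E K (x i1) ≠ 0 := (_root_.map_ne_zero _).2 hi1
  have hmem : ∀ i j, x' j ≠ 0 → x' i / x' j ∈ coords F x' := fun i j hj =>
    IntermediateField.subset_adjoin _ _ ⟨i, j, hj, rfl⟩
  have hE : ∀ e : E, algebraMap E K e ∈ coords F x' := by
    intro e
    have h1 : e ∈ IntermediateField.adjoin F (Set.range fun i => x i / x i1) := by
      rw [Pool.Agent.TH466.QG.adjoin_norm hgen hi1]
      exact IntermediateField.mem_top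
    have h2 : algebraMap E K e ∈ (IntermediateField.adjoin F (Set.range fun i => x i / x i1)).map
        (IsScalarTower.toAlgHom F E K) := ⟨e, h1, rfl⟩
    rw [IntermediateField.adjoin_map] at h2
    refine (IntermediateField.adjoin_le_iff.2 ?_) h2
    rintro _ ⟨_, ⟨i, rfl⟩, rfl⟩
    have h3 := hmem i.castSucc i1.castSucc (by rw [hc]; exact hne)
    rw [hc, hc, ← map_div₀] at h3
    exact h3
  have hτm : τ ∈ coords F x' := by
    have h3 := hmem (Fin.last (M + 1)) i1.castSucc (by rw [hc]; exact hne)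
    rw [hc, hl, mul_div_cancel_right₀ _ hne] at h3
    exact h3
  rw [eq_top_iff]
  intro f _
  obtain ⟨g, rfl⟩ := hτ f
  rw [aeval_eq_sum_range]
  refine sum_mem fun i _ => ?_
  rw [Algebra.smul_def]
  exact mul_mem (hE _) (pow_mem hτm _)

variable [FiniteDimensional E K] [Algebra.IsSeparable E K]

/-- **Lifting of points.** -/
theorem lift_pt {x : Fin (M + 1) → E} (hx : x ≠ 0) (hgen : coords F x = ⊤)
    (S : Finset (MvPolynomial (Fin (M + 1)) F)) (hS : ∀ G ∈ S, EtaleAt F K x G) :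
    ∃ x' : Fin (M + 1 + 1) → K, x' ≠ 0 ∧ coords F x' = ⊤ ∧
      ∃ T : Set (MvPolynomial (Fin (M + 1)) F), T.Finite ∧
      ∀ G' : MvPolynomial (Fin (M + 1 + 1)) F, IsForm G' → val x' G' ≠ 0 →
      ∃ G₀ : MvPolynomial (Fin (M + 1)) F, IsForm G₀ ∧ val x G₀ ≠ 0 ∧
      ∀ (L : Type) [Field L] [Algebra F L] (P : Fin (M + 1) → L), OnVar F x P → val P G₀ ≠ 0 →
      ∃ (L' : Type) (_ : Field L') (_ : Algebra F L') (_ : Algebra L L')
        (_ : IsScalarTower F L L') (P' : Fin (M + 1 + 1) → L'), FiniteDimensional L L' ∧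
        Module.finrank L L' ≤ Module.finrank E K ∧ OnVar F x' P' ∧
        (∀ i : Fin (M + 1), P' i.castSucc = algebraMap L L' (P i)) ∧ val P' G' ≠ 0 ∧
        ∀ G ∈ S, ∀ e, G.IsHomogeneous e → ∃ (θ : L') (μ a b : L[X]), μ.Monic ∧
          a * μ + b * derivative μ = 1 ∧ aeval θ μ = 0 ∧ (∀ f : L', ∃ g : L[X], f = aeval θ g) ∧
          ∀ c, c ∈ μ.coeffs ∨ c ∈ a.coeffs ∨ c ∈ b.coeffs →
            ∃ (m : ℕ) (N : MvPolynomial (Fin (M + 1)) F), N ∈ T ∧ N.IsHomogeneous (m * e) ∧
              c * val P G ^ m = val P N := by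
  classical
  obtain ⟨i1, hi1'⟩ := Function.ne_iff.1 hx
  have hi1 : x i1 ≠ 0 := hi1'
  obtain ⟨τ, hτ, hspec⟩ := spec_gen (K := K) (Pool.Agent.TH466.QG.adjoin_norm hgen hi1)
  have hdata : ∀ G ∈ S, ∃ (e : ℕ) (θ : K) (μ a b g : E[X]), G.IsHomogeneous e ∧ μ.Monic ∧
      a * μ + b * derivative μ = 1 ∧ aeval θ μ = 0 ∧ τ = aeval θ g ∧
      ∀ c, c ∈ μ.coeffs ∨ c ∈ a.coeffs ∨ c ∈ b.coeffs →
        ∃ (m : ℕ) (N : MvPolynomial (Fin (M + 1)) F), N.IsHomogeneous (m * e) ∧
          c * val x G ^ m = val x N := by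
    intro G hG
    obtain ⟨-, e, θ, μ, a, b, h1, h2, h3, h4, h5, h6⟩ := hS G hG
    obtain ⟨g, hg⟩ := gen_of ⟨μ, h2, h4⟩ h5 τ
    exact ⟨e, θ, μ, a, b, g, h1, h2, h3, h4, hg, h6⟩
  choose! e θ μ a b g he hμ hab hθ hg hN using hdata
  choose! m N hN1 hN2 using hN
  set x' : Fin (M + 1 + 1) → K :=
    Fin.snoc (fun i => algebraMap E K (x i)) (τ * algebraMap E K (x i1)) with hx'
  have hc : ∀ i : Fin (M + 1), x' i.castSucc = algebraMap E K (x i) := fun i => by
    rw [hx']
    exact Fin.snoc_castSucc (α := fun _ => K) _ _ i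
  have hl : x' (Fin.last (M + 1)) = τ * algebraMap E K (x i1) := by
    rw [hx']
    exact Fin.snoc_last (α := fun _ => K) _ _
  have hne : algebraMap E K (x i1) ≠ 0 := (_root_.map_ne_zero _).2 hi1
  refine ⟨x', ?_, coords_snoc hi1 hgen hτ, ⋃ G ∈ S, (N G) '' ((↑(μ G).coeffs : Set E) ∪
    (↑(a G).coeffs : Set E) ∪ (↑(b G).coeffs : Set E)), ?_, ?_⟩
  · intro h
    have h1 := congrFun h i1.castSucc
    rw [hc] at h1
    exact hne h1
  · exact (Finset.finite_toSet S).biUnion fun G _ => (((Finset.finite_toSet _).union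
      (Finset.finite_toSet _)).union (Finset.finite_toSet _)).image _
  intro G' hG' hG'0
  obtain ⟨e', he'⟩ := hG'
  set u : Fin (M + 1 + 1) → K := fun j => x' j / algebraMap E K (x i1) with hu
  obtain ⟨H, hH, hsp⟩ := hspec
    (⋃ G ∈ S, ((↑(μ G).coeffs : Set E) ∪ (↑(a G).coeffs : Set E) ∪ (↑(b G).coeffs : Set E) ∪
      (↑(g G).coeffs : Set E)))
    ((Finset.finite_toSet S).biUnion fun G _ => (((Finset.finite_toSet _).union
      (Finset.finite_toSet _)).union (Finset.finite_toSet _)).union (Finset.finite_toSet _))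
    ({(MvPolynomial.aeval u G')⁻¹} ∪ θ '' (↑S : Set (MvPolynomial (Fin (M + 1)) F)))
    ((Set.finite_singleton _).union ((Finset.finite_toSet S).image _))
  refine ⟨MvPolynomial.X i1 * Pool.Agent.TH466.QG.hz i1 H, ?_, ?_, ?_⟩
  · obtain ⟨e, he⟩ := Pool.Agent.TH466.QG.hz_form i1 H
    exact ⟨1 + e, (MvPolynomial.isHomogeneous_X F i1).mul he⟩
  · change MvPolynomial.aeval x _ ≠ 0
    rw [map_mul, MvPolynomial.aeval_X]
    refine mul_ne_zero hi1 ?_
    change val x _ ≠ 0
    rw [Pool.Agent.TH466.QG.val_hz H hi1]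
    exact mul_ne_zero (pow_ne_zero _ hi1) hH
  intro L _ _ P hP hPR
  change MvPolynomial.aeval P _ ≠ 0 at hPR
  rw [map_mul, MvPolynomial.aeval_X] at hPR
  have hz1 : P i1 ≠ 0 := left_ne_zero_of_mul hPR
  have hzH : MvPolynomial.aeval (fun i => P i / P i1) H ≠ 0 := by
    have h1 : val P (Pool.Agent.TH466.QG.hz i1 H) ≠ 0 := right_ne_zero_of_mul hPR
    rw [Pool.Agent.TH466.QG.val_hz H hz1] at h1
    exact right_ne_zero_of_mul h1
  have hrel : ∀ G : MvPolynomial (Fin (M + 1)) F,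
      MvPolynomial.aeval (fun i => x i / x i1) G = 0 →
      MvPolynomial.aeval (fun i => P i / P i1) G = 0 := by
    intro G hG
    have h1 : val x (Pool.Agent.TH466.QG.hz i1 G) = 0 := by
      rw [Pool.Agent.TH466.QG.val_hz G hi1, hG, mul_zero]
    have h2 := hP.2 _ (Pool.Agent.TH466.QG.hz_form i1 G) h1
    rw [Pool.Agent.TH466.QG.val_hz G hz1] at h2
    exact (mul_eq_zero.1 h2).resolve_left (pow_ne_zero _ hz1)
  obtain ⟨L', _, _, _, _, B₀, _, _, B, _, _, α₀, β₀, ι, α, β, t, hfd, hrk, hα₀, hα, hαι, hβι, hxy,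
    hΞr, hΘr, ht, htg⟩ := hsp L (fun i => P i / P i1) hrel hzH
  choose w hw1 hw2 using hxy
  have hne' : algebraMap L L' (P i1) ≠ 0 := (_root_.map_ne_zero _).2 hz1
  set wB : Fin (M + 1 + 1) → B := Fin.snoc (fun i => ι (w i)) t with hwB
  have hwc : ∀ i : Fin (M + 1), wB i.castSucc = ι (w i) := fun i => by
    rw [hwB]
    exact Fin.snoc_castSucc (α := fun _ => B) _ _ i
  have hwl : wB (Fin.last (M + 1)) = t := by
    rw [hwB]
    exact Fin.snoc_last (α := fun _ => B) _ _
  have hxα : ∀ j, x' j = algebraMap E K (x i1) * α (wB j) := by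
    intro j
    refine Fin.lastCases ?_ (fun i => ?_) j
    · rw [hl, hwl, ht, mul_comm]
    · rw [hc, hwc, hαι, hw1, ← map_mul, mul_div_cancel₀ _ hi1]
  have huα : u = fun j => α (wB j) := by
    funext j
    rw [hu]
    change x' j / _ = _
    rw [hxα, mul_div_cancel_left₀ _ hne]
  have hvx : ∀ (Q : MvPolynomial (Fin (M + 1 + 1)) F) (D : ℕ), Q.IsHomogeneous D →
      val x' Q = algebraMap E K (x i1) ^ D * α (MvPolynomial.aeval wB Q) := by
    intro Q D hQ
    have h1 : x' = fun j => algebraMap E K (x i1) * α (wB j) := funext hxα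
    change MvPolynomial.aeval x' Q = _
    rw [h1, form_scale _ (fun j => α (wB j)) hQ, ← AlgHom.comp_apply, MvPolynomial.comp_aeval]
  set P' : Fin (M + 1 + 1) → L' := fun j => algebraMap L L' (P i1) * β (wB j) with hP'
  have hvP : ∀ (Q : MvPolynomial (Fin (M + 1 + 1)) F) (D : ℕ), Q.IsHomogeneous D →
      val P' Q = algebraMap L L' (P i1) ^ D * β (MvPolynomial.aeval wB Q) := by
    intro Q D hQ
    change MvPolynomial.aeval P' Q = _
    rw [hP', form_scale _ (fun j => β (wB j)) hQ, ← AlgHom.comp_apply, MvPolynomial.comp_aeval]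
  have hP'c : ∀ i : Fin (M + 1), P' i.castSucc = algebraMap L L' (P i) := by
    intro i
    change algebraMap L L' (P i1) * β (wB i.castSucc) = _
    rw [hwc, hβι, hw2, ← map_mul, mul_div_cancel₀ _ hz1]
  refine ⟨L', inferInstance, inferInstance, inferInstance, inferInstance, P', hfd, hrk, ⟨⟨i1.castSucc,
    by rw [hP'c]; exact hne'⟩, ?_⟩, hP'c, ?_, ?_⟩
  · rintro Q ⟨D, hQ⟩ h0
    rw [hvx Q D hQ] at h0
    have h1 := (mul_eq_zero.1 h0).resolve_left (pow_ne_zero _ hne)
    rw [← map_zero α] at h1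
    rw [hvP Q D hQ, hα h1, map_zero, mul_zero]
  · rw [hvx G' e' he'] at hG'0
    rw [hvP G' e' he']
    refine mul_ne_zero (pow_ne_zero _ hne') ?_
    refine unit_ne (α : B →+* K) (β : B →+* L') hα (right_ne_zero_of_mul hG'0) ?_
    have h1 : MvPolynomial.aeval u G' = α (MvPolynomial.aeval wB G') := by
      rw [huα, ← AlgHom.comp_apply, MvPolynomial.comp_aeval]
    obtain ⟨b, hb⟩ := hΘr _ (Or.inl rfl)
    rw [h1] at hb
    exact ⟨b, hb⟩
  · intro G hG e'' he''
    have hG0 : G ≠ 0 := by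
      rintro rfl
      apply (hS _ hG).1
      change MvPolynomial.aeval x 0 = 0
      rw [map_zero]
    have hee : e'' = e G := he''.inj_right (he G hG) hG0
    subst hee
    have hα₀' : Function.Injective (α₀ : B₀ →+* E) := hα₀
    obtain ⟨μ0, hμ0⟩ := lift_poly (α₀ : B₀ →+* E) (p := μ G) fun c hc => hΞr c
      (Set.mem_biUnion (show G ∈ (↑S : Set _) from hG) (Or.inl (Or.inl (Or.inl hc))))
    obtain ⟨a0, ha0⟩ := lift_poly (α₀ : B₀ →+* E) (p := a G) fun c hc => hΞr c
      (Set.mem_biUnion (show G ∈ (↑S : Set _) from hG) (Or.inl (Or.inl (Or.inr hc))))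
    obtain ⟨b0, hb0⟩ := lift_poly (α₀ : B₀ →+* E) (p := b G) fun c hc => hΞr c
      (Set.mem_biUnion (show G ∈ (↑S : Set _) from hG) (Or.inl (Or.inr hc)))
    obtain ⟨g0, hg0⟩ := lift_poly (α₀ : B₀ →+* E) (p := g G) fun c hc => hΞr c
      (Set.mem_biUnion (show G ∈ (↑S : Set _) from hG) (Or.inr hc))
    obtain ⟨s, hs⟩ := hΘr (θ G) (Or.inr ⟨G, hG, rfl⟩)
    have hkα : ∀ f0 : B₀[X], α (f0.eval₂ (ι : B₀ →+* B) s) =
        aeval (θ G) (f0.map (α₀ : B₀ →+* E)) := by
      intro f0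
      have h1 := Polynomial.hom_eval₂ f0 (ι : B₀ →+* B) (α : B →+* K) s
      change α (f0.eval₂ (ι : B₀ →+* B) s) = _ at h1
      rw [h1, aeval_def, eval₂_map]
      change eval₂ _ (α s) f0 = _
      rw [hs]
      congr 1
      ext z
      exact hαι z
    have hkβ : ∀ f0 : B₀[X], β (f0.eval₂ (ι : B₀ →+* B) s) =
        aeval (β s) (f0.map (β₀ : B₀ →+* L)) := by
      intro f0
      have h1 := Polynomial.hom_eval₂ f0 (ι : B₀ →+* B) (β : B →+* L') s
      change β (f0.eval₂ (ι : B₀ →+* B) s) = _ at h1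
      rw [h1, aeval_def, eval₂_map]
      change eval₂ _ (β s) f0 = _
      congr 1
      ext z
      exact hβι z
    have hmonic : μ0.Monic := by
      rw [hα₀'.monic_map_iff, hμ0]
      exact hμ G hG
    refine ⟨β s, μ0.map (β₀ : B₀ →+* L), a0.map (β₀ : B₀ →+* L), b0.map (β₀ : B₀ →+* L),
      hmonic.map _, ?_, ?_, ?_, ?_⟩
    · have h1 : a0 * μ0 + b0 * derivative μ0 = 1 := by
        apply Polynomial.map_injective (α₀ : B₀ →+* E) hα₀'
        rw [Polynomial.map_add, Polynomial.map_mul, Polynomial.map_mul, ← derivative_map, ha0, hμ0,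
          hb0, Polynomial.map_one]
        exact hab G hG
      have h2 := congrArg (Polynomial.map (β₀ : B₀ →+* L)) h1
      rw [Polynomial.map_add, Polynomial.map_mul, Polynomial.map_mul, ← derivative_map,
        Polynomial.map_one] at h2
      exact h2
    · have h1 : μ0.eval₂ (ι : B₀ →+* B) s = 0 := by
        apply hα
        rw [hkα, hμ0, hθ G hG, map_zero]
      rw [← hkβ, h1, map_zero]
    · intro f
      obtain ⟨g1, hg1⟩ := htg f
      have h1 : t = g0.eval₂ (ι : B₀ →+* B) s := by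
        apply hα
        rw [hkα, hg0, ht]
        exact hg G hG
      refine ⟨g1.comp (g0.map (β₀ : B₀ →+* L)), ?_⟩
      rw [aeval_comp, ← hkβ, ← h1]
      exact hg1
    · have hcoef : ∀ (f0 : B₀[X]) (f : E[X]), f0.map (α₀ : B₀ →+* E) = f →
          ∀ c ∈ (f0.map (β₀ : B₀ →+* L)).coeffs, ∃ c0 : B₀, β₀ c0 = c ∧ α₀ c0 ∈ f.coeffs := by
        intro f0 f hf c hc
        obtain ⟨n, hn, hn'⟩ := Polynomial.mem_coeffs_iff.1 hc
        rw [Polynomial.mem_support_iff, coeff_map] at hn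
        have h0 : f0.coeff n ≠ 0 := by
          intro h0
          rw [h0, map_zero] at hn
          exact hn rfl
        have h1 : f.coeff n = α₀ (f0.coeff n) := by
          rw [← hf, coeff_map]
          rfl
        refine ⟨f0.coeff n, ?_, ?_⟩
        · rw [hn', coeff_map]
          rfl
        · rw [← h1]
          apply Polynomial.coeff_mem_coeffs
          rw [h1]
          intro h2
          apply h0
          apply hα₀
          rw [h2, map_zero]
      have hfin : ∀ c0 : B₀, (α₀ c0 ∈ (μ G).coeffs ∨ α₀ c0 ∈ (a G).coeffs ∨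
          α₀ c0 ∈ (b G).coeffs) → β₀ c0 * val P G ^ m G (α₀ c0) = val P (N G (α₀ c0)) := by
        intro c0 hc0
        have h1 := hN2 G hG (α₀ c0) hc0
        have h2 := hN1 G hG (α₀ c0) hc0
        have hA : ∀ (Q : MvPolynomial (Fin (M + 1)) F) (D : ℕ), Q.IsHomogeneous D →
            val x Q = x i1 ^ D * α₀ (MvPolynomial.aeval w Q) := by
          intro Q D hQ
          rw [val_norm x hi1 hQ, ← AlgHom.comp_apply, MvPolynomial.comp_aeval]
          congr 3
          funext i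
          exact (hw1 i).symm
        have hB : ∀ (Q : MvPolynomial (Fin (M + 1)) F) (D : ℕ), Q.IsHomogeneous D →
            val P Q = P i1 ^ D * β₀ (MvPolynomial.aeval w Q) := by
          intro Q D hQ
          rw [val_norm P hz1 hQ, ← AlgHom.comp_apply, MvPolynomial.comp_aeval]
          congr 3
          funext i
          exact (hw2 i).symm
        rw [hA G _ (he G hG), hA _ _ h2, mul_pow, ← pow_mul, mul_comm (e G) (m G (α₀ c0))] at h1
        have h3 : c0 * (MvPolynomial.aeval w G) ^ m G (α₀ c0) =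
            MvPolynomial.aeval w (N G (α₀ c0)) := by
          apply hα₀
          rw [map_mul, map_pow]
          refine mul_left_cancel₀ (pow_ne_zero (m G (α₀ c0) * e G) hi1) ?_
          rw [← h1]
          ring
        rw [hB G _ (he G hG), hB _ _ h2, ← h3, map_mul, map_pow, mul_pow, ← pow_mul,
          mul_comm (e G) (m G (α₀ c0))]
        ring
      have hT : ∀ c0 : B₀, (α₀ c0 ∈ (μ G).coeffs ∨ α₀ c0 ∈ (a G).coeffs ∨
          α₀ c0 ∈ (b G).coeffs) → N G (α₀ c0) ∈ ⋃ G ∈ S, (N G) '' ((↑(μ G).coeffs : Set E) ∪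
            (↑(a G).coeffs : Set E) ∪ (↑(b G).coeffs : Set E)) := by
        intro c0 hc0
        refine Set.mem_biUnion (show G ∈ (↑S : Set _) from hG) ⟨α₀ c0, ?_, rfl⟩
        rcases hc0 with h | h | h
        · exact Or.inl (Or.inl h)
        · exact Or.inl (Or.inr h)
        · exact Or.inr h
      rintro c (hc | hc | hc)
      · obtain ⟨c0, h1, h2⟩ := hcoef μ0 _ hμ0 c hc
        exact ⟨m G (α₀ c0), N G (α₀ c0), hT c0 (Or.inl h2), hN1 G hG _ (Or.inl h2), by
          rw [← h1]; exact hfin c0 (Or.inl h2)⟩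
      · obtain ⟨c0, h1, h2⟩ := hcoef a0 _ ha0 c hc
        exact ⟨m G (α₀ c0), N G (α₀ c0), hT c0 (Or.inr (Or.inl h2)),
          hN1 G hG _ (Or.inr (Or.inl h2)), by rw [← h1]; exact hfin c0 (Or.inr (Or.inl h2))⟩
      · obtain ⟨c0, h1, h2⟩ := hcoef b0 _ hb0 c hc
        exact ⟨m G (α₀ c0), N G (α₀ c0), hT c0 (Or.inr (Or.inr h2)),
          hN1 G hG _ (Or.inr (Or.inr h2)), by rw [← h1]; exact hfin c0 (Or.inr (Or.inr h2))⟩

end Pool.Agent.Run7.h830.GN
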