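import Pool.Agent.Y221.AH.Sum
import Pool.Agent.W603.PV.Disc

/-!
Unramified extensions of function fields: a criterion, and the inequality of Hurwitz from above.
-/

set_option autoImplicit false

namespace Pool.Agent.Run7.h830.GN

open Polynomial FF
open Pool.Agent.W603.LV Pool.Agent.W603.PV

section crit

variable {k L L' : Type} [Field k] [IsAlgClosed k] [CharZero k] [Field L] [Algebra k L] [IsFF k L]
  [Field L'] [Algebra k L'] [IsFF k L'] [Algebra L L'] [IsScalarTower k L L']

theorem ge_alg (w : Place k L') {v : Place k L} (hv : under L w = v) {x : L} {N : ℤ}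
    (h : Ge v N x) : Ge w (ram L w * N) (algebraMap L L' x) := by
  subst hv
  rcases h with rfl | h
  · left
    rw [map_zero]
  · right
    rw [ord_under]
    exact mul_le_mul_of_nonneg_left h (Int.natCast_nonneg _)

theorem ge_of_alg (w : Place k L') {v : Place k L} (hv : under L w = v) {x : L}
    (h : Ge w 1 (algebraMap L L' x)) : Ge v 1 x := by
  subst hv
  rcases h with h | h
  · left
    exact (_root_.map_eq_zero _).1 h
  · right
    rw [ord_under] at h
    have h1 := (ram_spec (F := L) w).1
    by_contra hcon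
    push Not at hcon
    have h2 : (under L w).ord x ≤ 0 := by omega
    have h3 : (ram L w : ℤ) * (under L w).ord x ≤ 0 :=
      mul_nonpos_of_nonneg_of_nonpos (Int.natCast_nonneg _) h2
    omega

/-- the ring homomorphism of the valuation rings -/
noncomputable def oMap (w : Place k L') {v : Place k L} (hv : under L w = v) : v.O →+* w.O :=
  ((algebraMap L L').comp v.O.subtype).codRestrict w.O fun a => by
    have h := ge_alg w hv (N := 0) (x := (a : L)) a.2
    rw [mul_zero] at h
    exact h

theorem ge_O (w : Place k L') (a : w.O) : Ge w 0 (a : L') := a.2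

/-- divisibility in the valuation ring -/
theorem ge_of_dvd (w : Place k L') {a b : w.O} {N : ℤ} (ha : Ge w N (a : L')) (h : a ∣ b) :
    Ge w N (b : L') := by
  obtain ⟨c, rfl⟩ := h
  have h1 := ha.mul (ge_O w c)
  rw [add_zero] at h1
  exact h1

/-- `1 + m` is a unit for `m` in the maximal ideal -/
theorem ord_unit (w : Place k L') {x y : L'} (hx : Ge w 1 x) (hy : Ge w 0 y) {z : L'} (hz : Ge w 0 z)
    (h : z * y = 1 - x) : y ≠ 0 ∧ w.ord y = 0 := by
  have h1 : (1 : L') - x ≠ 0 ∧ w.ord (1 - x) = 0 := by
    rcases hx with rfl | hx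
    · rw [sub_zero]
      exact ⟨one_ne_zero, w.ord_one⟩
    · by_cases hx0 : x = 0
      · rw [hx0, sub_zero]
        exact ⟨one_ne_zero, w.ord_one⟩
      · have h2 := w.ord_add_eq (f := 1) (g := -x) one_ne_zero (neg_ne_zero.2 hx0) (by
          rw [w.ord_neg, w.ord_one]
          omega)
        rw [← sub_eq_add_neg, w.ord_one] at h2
        exact h2
  rw [← h] at h1
  have hz0 : z ≠ 0 := left_ne_zero_of_mul h1.1
  have hy0 : y ≠ 0 := right_ne_zero_of_mul h1.1
  refine ⟨hy0, ?_⟩
  have h3 := h1.2
  rw [w.ord_mul hz0 hy0] at h3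
  have h4 := hz.resolve_left hz0
  have h5 := hy.resolve_left hy0
  omega

/-- **A criterion for unramified places.** -/
theorem ram_one (w : Place k L') {v : Place k L} (hv : under L w = v) {μ a b : v.O[X]}
    (hμ : μ.Monic) (hab : a * μ + b * derivative μ = 1) {θ : L'}
    (hθ : μ.eval₂ ((algebraMap L L').comp v.O.subtype) θ = 0)
    (hgen : ∀ f : L', ∃ g : L[X], f = aeval θ g) : ram L w = 1 := by
  classical
  set ι : v.O →+* w.O := oMap w hv with hι
  have hr0 := (ram_spec (F := L) w).1
  have hιc : ∀ r : v.O, ((ι r : w.O) : L') = algebraMap L L' (r : L) := fun r => rfl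
  have hcomp : w.O.subtype.comp ι = (algebraMap L L').comp v.O.subtype := rfl
  -- `θ` is regular
  have hθreg : w.Reg θ := by
    refine w.reg_of_isIntegral (A := w.O) (fun a => a.2) ⟨μ.map ι, hμ.map _, ?_⟩
    rw [eval₂_map]
    exact hθ
  set t : w.O := ⟨θ, hθreg⟩ with ht
  have htθ : (t : L') = θ := rfl
  have hμt : (μ.map ι).eval t = 0 := by
    apply Subtype.ext
    have h1 : (((μ.map ι).eval t : w.O) : L') = w.O.subtype ((μ.map ι).eval t) := rfl
    rw [h1, ← eval₂_at_apply, eval₂_map]
    exact hθ
  -- the residue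
  obtain ⟨c0, hc0⟩ := exists_const w (f := θ) hθreg
  -- the valuations of `μ(c)`
  have hlow : ∀ c : v.O, Ge w 1 (θ - algebraMap L L' (c : L)) → Ge v 1 ((μ.eval c : v.O) : L) := by
    intro c hc
    apply ge_of_alg w hv
    have h1 : t - ι c ∣ (μ.map ι).eval t - (μ.map ι).eval (ι c) := sub_dvd_eval_sub _ _ _
    have h2 : (μ.map ι).eval (ι c) = ι (μ.eval c) := by
      rw [eval_map, eval₂_at_apply]
    rw [hμt, zero_sub, h2] at h1
    have h3 := ge_of_dvd w (N := 1) (a := t - ι c) hc h1
    have h4 : ((-(ι (μ.eval c)) : w.O) : L') = -algebraMap L L' ((μ.eval c : v.O) : L) := rfl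
    rw [h4] at h3
    have h5 := h3.neg
    rwa [neg_neg] at h5
  have hder : ∀ c : v.O, Ge w 1 (θ - algebraMap L L' (c : L)) →
      ((μ.derivative.eval c : v.O) : L) ≠ 0 ∧ v.ord ((μ.derivative.eval c : v.O) : L) = 0 := by
    intro c hc
    have h1 := hlow c hc
    have h2 : a.eval c * μ.eval c + b.eval c * μ.derivative.eval c = 1 := by
      have := congrArg (eval c) hab
      rw [eval_add, eval_mul, eval_mul, eval_one] at this
      exact this
    have h3 : ((b.eval c : v.O) : L) * ((μ.derivative.eval c : v.O) : L) =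
        1 - ((a.eval c : v.O) : L) * ((μ.eval c : v.O) : L) := by
      have h4 : ((a.eval c : v.O) : L) * ((μ.eval c : v.O) : L) +
          ((b.eval c : v.O) : L) * ((μ.derivative.eval c : v.O) : L) = 1 :=
        congrArg (fun z : v.O => (z : L)) h2
      linear_combination h4
    have h5 : Ge v 1 (((a.eval c : v.O) : L) * ((μ.eval c : v.O) : L)) := by
      have := (ge_O v (a.eval c)).mul h1
      rwa [zero_add] at this
    exact ord_unit v h5 (ge_O v _) (ge_O v _) h3
  -- approximations
  have happrox : ∀ n : ℕ, ∃ c : v.O, Ge v ((n : ℤ) + 1) ((μ.eval c : v.O) : L) ∧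
      Ge w 1 (θ - algebraMap L L' (c : L)) := by
    intro n
    induction n with
    | zero =>
      let c1 : v.O := ⟨algebraMap k L c0, v.reg_const c0⟩
      have h1 : Ge w 1 (θ - algebraMap L L' (c1 : L)) := by
        have h2 : algebraMap L L' (c1 : L) = algebraMap k L' c0 :=
          (IsScalarTower.algebraMap_apply k L L' c0).symm
        rw [h2]
        exact hc0
      refine ⟨c1, ?_, h1⟩
      have h2 := hlow c1 h1
      simpa using h2
    | succ n ih =>
      obtain ⟨c, hc1, hc2⟩ := ih
      obtain ⟨hd0, hd⟩ := hder c hc2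
      let s : v.O := ⟨((μ.derivative.eval c : v.O) : L)⁻¹, Or.inr (by rw [v.ord_inv, hd]; simp)⟩
      have hs : μ.derivative.eval c * s = 1 := Subtype.ext (mul_inv_cancel₀ hd0)
      obtain ⟨κ, hκ⟩ := binomExpansion μ c (-(μ.eval c * s))
      have h1 : μ.eval (c + -(μ.eval c * s)) = κ * (μ.eval c * s) ^ 2 := by
        rw [hκ]
        linear_combination (-(μ.eval c)) * hs
      refine ⟨c + -(μ.eval c * s), ?_, ?_⟩
      · rw [h1]
        have h2 : Ge v ((n : ℤ) + 1) ((μ.eval c * s : v.O) : L) :=
          ge_of_dvd v hc1 (Dvd.intro _ rfl)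
        have h3 := (ge_O v κ).mul (h2.pow 2)
        refine Ge.mono ?_ h3
        push_cast
        linarith
      · have h2 : Ge v 1 ((μ.eval c * s : v.O) : L) :=
          ge_of_dvd v (Ge.mono (by linarith [Int.natCast_nonneg n]) hc1) (Dvd.intro _ rfl)
        have h3 := ge_alg w hv h2
        have h4 : Ge w 1 (algebraMap L L' ((μ.eval c * s : v.O) : L)) := by
          refine Ge.mono ?_ h3
          rw [mul_one]
          exact_mod_cast hr0
        have h5 : θ - algebraMap L L' ((c + -(μ.eval c * s) : v.O) : L) =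
            (θ - algebraMap L L' (c : L)) + algebraMap L L' ((μ.eval c * s : v.O) : L) := by
          have h6 : ((c + -(μ.eval c * s) : v.O) : L) = (c : L) - ((μ.eval c * s : v.O) : L) := by
            push_cast
            ring
          rw [h6, map_sub]
          ring
        rw [h5]
        exact hc2.add h4
  -- better approximations of `θ`
  have happrox2 : ∀ n : ℕ, ∃ c : v.O, Ge w (n : ℤ) (θ - algebraMap L L' (c : L)) := by
    intro n
    obtain ⟨c, hc1, hc2⟩ := happrox n
    refine ⟨c, ?_⟩
    obtain ⟨κ, hκ⟩ := binomExpansion (μ.map ι) (ι c) (t - ι c)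
    have e1 : (μ.map ι).eval (ι c) = ι (μ.eval c) := by
      rw [eval_map, eval₂_at_apply]
    have e2 : (derivative (μ.map ι)).eval (ι c) = ι (μ.derivative.eval c) := by
      rw [derivative_map, eval_map, eval₂_at_apply]
    rw [add_sub_cancel, hμt, e1, e2] at hκ
    obtain ⟨hd0, hd⟩ := hder c hc2
    -- the factor is a unit
    set u : w.O := ι (μ.derivative.eval c) + κ * (t - ι c) with hu
    have h1 : (u : L') ≠ 0 ∧ w.ord (u : L') = 0 := by
      have h2 : ((ι (μ.derivative.eval c) : w.O) : L') ≠ 0 := by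
        rw [hιc]
        exact (_root_.map_ne_zero _).2 hd0
      have h3 : w.ord ((ι (μ.derivative.eval c) : w.O) : L') = 0 := by
        rw [hιc, ord_under, hv, hd, mul_zero]
      have h4 : Ge w 1 ((κ * (t - ι c) : w.O) : L') := by
        have h5 := (ge_O w κ).mul (show Ge w 1 ((t - ι c : w.O) : L') from hc2)
        rwa [zero_add] at h5
      have h6 : (u : L') = ((ι (μ.derivative.eval c) : w.O) : L') + ((κ * (t - ι c) : w.O) : L') := rfl
      rw [h6]
      rcases h4 with h4 | h4
      · rw [h4, add_zero]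
        exact ⟨h2, h3⟩
      · by_cases h7 : ((κ * (t - ι c) : w.O) : L') = 0
        · rw [h7, add_zero]
          exact ⟨h2, h3⟩
        · have h8 := w.ord_add_eq h2 h7 (by omega)
          rw [h3] at h8
          exact h8
    have h2 : (u : L') * (θ - algebraMap L L' (c : L)) = -algebraMap L L' ((μ.eval c : v.O) : L) := by
      have h3 : u * (t - ι c) = -(ι (μ.eval c)) := by
        rw [hu]
        linear_combination (-1 : w.O) * hκ
      exact congrArg (fun z : w.O => (z : L')) h3
    have h3 : Ge w (n : ℤ) (-algebraMap L L' ((μ.eval c : v.O) : L)) := by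
      refine Ge.mono ?_ (ge_alg w hv hc1).neg
      have h4 : (1 : ℤ) ≤ ram L w := by exact_mod_cast hr0
      nlinarith [Int.natCast_nonneg n]
    rw [← h2] at h3
    exact Ge.of_mul' h1.1 h1.2 (by rwa [add_zero])
  -- the uniformizer
  obtain ⟨f, hf0, hf⟩ := w.surj
  obtain ⟨g, hg⟩ := hgen f
  obtain ⟨r, hrm, hr⟩ := IsLocalization.integerNormalization_spec (nonZeroDivisors v.O) g
  set g0 : v.O[X] := IsLocalization.integerNormalization (nonZeroDivisors v.O) g with hg0
  have hr1 : (r : L) ≠ 0 := fun h => nonZeroDivisors.ne_zero hrm (Subtype.ext h)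
  have hr2 : algebraMap L L' (r : L) ≠ 0 := (_root_.map_ne_zero _).2 hr1
  have e1 : ((g0.map ι).eval t : w.O) = algebraMap L L' (r : L) * f := by
    have h1 : (((g0.map ι).eval t : w.O) : L') = w.O.subtype ((g0.map ι).eval t) := rfl
    rw [h1, ← eval₂_at_apply, eval₂_map, hcomp]
    have h2 : g0.eval₂ ((algebraMap L L').comp v.O.subtype) θ =
        aeval θ (g0.map (algebraMap v.O L)) := by
      rw [aeval_def, eval₂_map]
      rfl
    change g0.eval₂ ((algebraMap L L').comp v.O.subtype) θ = _
    rw [h2, hr, hg]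
    have h3 : ((r : v.O) • g : L[X]) = C (r : L) * g := by
      rw [← smul_eq_C_mul]
      rfl
    rw [h3, map_mul, aeval_C]
  obtain ⟨c, hc⟩ := happrox2 ((w.ord (algebraMap L L' (r : L) * f)).toNat + 1)
  have h1 : t - ι c ∣ (g0.map ι).eval t - (g0.map ι).eval (ι c) := sub_dvd_eval_sub _ _ _
  have h2 : (g0.map ι).eval (ι c) = ι (g0.eval c) := by
    rw [eval_map, eval₂_at_apply]
  rw [h2] at h1
  have h3 := ge_of_dvd w (a := t - ι c) hc h1
  have h4 : (((g0.map ι).eval t - ι (g0.eval c) : w.O) : L') =
      algebraMap L L' (r : L) * f - algebraMap L L' ((g0.eval c : v.O) : L) := by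
    rw [← e1]
    rfl
  rw [h4] at h3
  set y : L' := algebraMap L L' (r : L) * f with hy
  set z : L := ((g0.eval c : v.O) : L) with hz
  have hy0 : y ≠ 0 := mul_ne_zero hr2 hf0
  have h5 : w.ord (algebraMap L L' z) = w.ord y := by
    rcases h3 with h3 | h3
    · rw [sub_eq_zero] at h3
      rw [h3]
    · by_cases h6 : y - algebraMap L L' z = 0
      · rw [sub_eq_zero] at h6
        rw [h6]
      · have h7 := w.ord_add_eq (f := y) (g := -(y - algebraMap L L' z)) hy0 (neg_ne_zero.2 h6) (by
          rw [w.ord_neg]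
          have := Int.self_le_toNat (w.ord y)
          push_cast at h3
          omega)
        have h8 : y + -(y - algebraMap L L' z) = algebraMap L L' z := by ring
        rw [h8] at h7
        exact h7.2
  have h6 : w.ord y = w.ord (algebraMap L L' (r : L)) + 1 := by
    rw [hy, w.ord_mul hr2 hf0, hf]
  have h7 : (ram L w : ℤ) ∣ 1 := by
    have h8 : (1 : ℤ) = w.ord (algebraMap L L' z) - w.ord (algebraMap L L' (r : L)) := by
      rw [h5, h6]
      ring
    rw [h8]
    exact dvd_sub (ram_dvd w z) (ram_dvd w (r : L))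
  have h8 := Int.eq_one_of_dvd_one (Int.natCast_nonneg _) h7
  exact_mod_cast h8

end crit

end Pool.Agent.Run7.h830.GN
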