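import Pool.Agent.Run7.h830.GN.Lift
import Pool.Agent.Run7.h830.GN.Ram
import Pool.Agent.Run7.h830.GN.Hur
import Pool.Agent.Run7.h830.CS.Voj
import Pool.Agent.TH143.GE.Form

/-!
The height inequality for pairs which are dominated by a variety with a map with many preperiodic points.
-/

set_option autoImplicit false

namespace Pool.Agent.Run7.h830.GN

open Polynomial FF
open Pool.Agent.W602.GT (coords val IsForm)
open Pool.Agent.Y216 (OnVar)
open Pool.Agent.Q209.GT (lift_poly)
open Pool.Agent.Q103.EC (ManyPrep)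
open Pool.Agent.W603.LV
open Pool.Agent.W603.PV
open Pool.Agent.Y221.AH (pht_sum pord_le_iff pht_algebraMap exists_over sum_over)

/-- The point `P` meets the closed set of the common zeros of the forms in `S` at the place `v`. -/
def MeetsAt {k F L : Type} [Field k] [Field F] [Field L] [Algebra k L] [Algebra F L] {M : ℕ}
    (S : Finset (MvPolynomial (Fin (M + 1)) F)) (P : Fin (M + 1) → L) (v : Place k L) : Prop :=
  ∀ G ∈ S, ∀ e : ℕ, G.IsHomogeneous e → val P G ≠ 0 → (e : ℤ) * pord v P < v.ord (val P G)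

section

variable {k F L : Type} [Field k] [Field F] [Field L] [Algebra k L] [Algebra F L] {M : ℕ}

/-- regular functions on the complement of the zeros of `G` -/
theorem reg_of_form (v : Place k L) {P : Fin (M + 1) → L} {G N : MvPolynomial (Fin (M + 1)) F}
    {e m : ℕ} (hG0 : val P G ≠ 0)
    (hGv : v.ord (val P G) ≤ (e : ℤ) * pord v P) (hN : N.IsHomogeneous (m * e))
    (hc : ∀ α ∈ N.support, Ge v 0 (algebraMap F L (N.coeff α))) {c : L}
    (h : c * val P G ^ m = val P N) : Ge v 0 c := by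
  have h1 : Ge v (((m * e : ℕ) : ℤ) * pord v P) (val P N) := ge_form v P hN hc
  rw [← h] at h1
  by_cases hc0 : c = 0
  · exact Or.inl hc0
  right
  have h2 := h1.resolve_left (mul_ne_zero hc0 (pow_ne_zero _ hG0))
  rw [v.ord_mul hc0 (pow_ne_zero _ hG0), v.ord_pow] at h2
  push_cast at h2
  have h3 := mul_le_mul_of_nonneg_left hGv (Int.natCast_nonneg m)
  have h4 : (m : ℤ) * ((e : ℤ) * pord v P) = (m : ℤ) * e * pord v P := by ring
  rw [h4] at h3
  linarith

end

section

variable {k L L' : Type} [Field k] [IsAlgClosed k] [CharZero k] [Field L] [Algebra k L] [IsFF k L]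
  [Field L'] [Algebra k L'] [IsFF k L'] [Algebra L L'] [IsScalarTower k L L']

/-- an unramified place -/
theorem ram_one' (w : Place k L') {v : Place k L} (hv : under L w = v) {μ a b : L[X]}
    (hμ : μ.Monic) (hab : a * μ + b * derivative μ = 1) {θ : L'} (hθ : aeval θ μ = 0)
    (hgen : ∀ f : L', ∃ g : L[X], f = aeval θ g)
    (hreg : ∀ c, c ∈ μ.coeffs ∨ c ∈ a.coeffs ∨ c ∈ b.coeffs → Ge v 0 c) : ram L w = 1 := by
  have hinj : Function.Injective v.O.subtype := Subtype.val_injective
  obtain ⟨μ0, hμ0⟩ := lift_poly v.O.subtype (p := μ) fun c hc => ⟨⟨c, hreg c (Or.inl hc)⟩, rfl⟩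
  obtain ⟨a0, ha0⟩ := lift_poly v.O.subtype (p := a) fun c hc =>
    ⟨⟨c, hreg c (Or.inr (Or.inl hc))⟩, rfl⟩
  obtain ⟨b0, hb0⟩ := lift_poly v.O.subtype (p := b) fun c hc =>
    ⟨⟨c, hreg c (Or.inr (Or.inr hc))⟩, rfl⟩
  refine ram_one w hv (μ := μ0) (a := a0) (b := b0) (θ := θ) ?_ ?_ ?_ hgen
  · rw [hinj.monic_map_iff, hμ0]
    exact hμ
  · apply Polynomial.map_injective v.O.subtype hinj
    rw [Polynomial.map_add, Polynomial.map_mul, Polynomial.map_mul, ← derivative_map, ha0, hμ0,
      hb0, Polynomial.map_one]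
    exact hab
  · rw [← eval₂_map, hμ0]
    exact hθ

variable [FiniteDimensional L L']

/-- heights of points with more coordinates -/
theorem pht_mono {M : ℕ} {P : Fin (M + 1) → L} (hP : ∃ j, P j ≠ 0) {P' : Fin (M + 1 + 1) → L'}
    (h : ∀ i : Fin (M + 1), P' i.castSucc = algebraMap L L' (P i)) :
    Module.finrank L L' * pht k P ≤ pht k P' := by
  classical
  rw [← pht_algebraMap (L := L') hP]
  have hP1 : ∃ j, (fun i => algebraMap L L' (P i)) j ≠ 0 := by
    obtain ⟨j, hj⟩ := hP
    exact ⟨j, (_root_.map_ne_zero _).2 hj⟩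
  have hP2 : ∃ j, P' j ≠ 0 := by
    obtain ⟨j, hj⟩ := hP1
    exact ⟨j.castSucc, by rw [h]; exact hj⟩
  obtain ⟨T, hT⟩ := exists_supp (k := k) Finset.univ P'
  rw [pht_sum hP1 T (fun j Q hQ => hT j.castSucc (Finset.mem_univ _) Q (by rw [h]; exact hQ)),
    pht_sum hP2 T (fun j Q hQ => hT j (Finset.mem_univ _) Q hQ)]
  refine Finset.sum_le_sum fun Q _ => neg_le_neg ?_
  rw [pord_le_iff Q hP1]
  intro j
  rw [← h]
  exact ge_pord Q P' _

end

theorem finite_of_ff {k F L : Type} [Field k] [IsAlgClosed k] [CharZero k] [Field F] [Algebra k F]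
    [IsFF k F] [Field L] [Algebra k L] [IsFF k L] [Algebra F L] [IsScalarTower k F L] :
    FiniteDimensional F L := by
  have halg : Algebra.IsAlgebraic F L := Pool.Agent.TH143.GE.alg_of_ff k F L
  have hess : Algebra.EssFiniteType k L := IsFF.ess
  have hess2 : Algebra.EssFiniteType F L := Algebra.EssFiniteType.of_comp k F L
  obtain ⟨s, hs⟩ := IntermediateField.fg_top F L
  have h1 : FiniteDimensional F (IntermediateField.adjoin F (s : Set L)) :=
    IntermediateField.finiteDimensional_adjoin fun x _ =>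
      (Algebra.IsAlgebraic.isAlgebraic x).isIntegral
  rw [hs] at h1
  exact h1.equiv IntermediateField.topEquiv.toLinearEquiv

/-- the places over a finite set of places -/
theorem card_over {k F L : Type} [Field k] [IsAlgClosed k] [CharZero k] [Field F] [Algebra k F]
    [IsFF k F] [Field L] [Algebra k L] [IsFF k L] [Algebra F L] [IsScalarTower k F L]
    [FiniteDimensional F L] (T : Finset (Place k F)) : ∃ T' : Finset (Place k L),
      (∀ w, under F w ∈ T ↔ w ∈ T') ∧ (T'.card : ℤ) ≤ Module.finrank F L * T.card := by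
  classical
  obtain ⟨T', hT'⟩ := exists_over (L := L) T
  refine ⟨T', hT', ?_⟩
  have h4 := sum_over (L := L) (fun v => if v ∈ T then (1 : ℤ) else 0) T
    (fun v hv => by
      by_contra h
      exact hv (if_neg h)) T' (fun w => (hT' w).1)
  have h5 : ∑ v ∈ T, (if v ∈ T then (1 : ℤ) else 0) = T.card := by
    rw [Finset.sum_congr rfl fun v hv => if_pos hv, Finset.sum_const, nsmul_eq_mul, mul_one]
  rw [h5] at h4
  rw [← h4]
  have h6 : (T'.card : ℤ) = ∑ w ∈ T', (1 : ℤ) := by
    rw [Finset.sum_const, nsmul_eq_mul, mul_one]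
  rw [h6]
  refine Finset.sum_le_sum fun w hw => ?_
  rw [if_pos ((hT' w).2 hw), mul_one]
  exact_mod_cast (ram_spec (F := F) w).1

/-- **The height inequality for pairs.** -/
theorem log_main (d : ℕ) (hd : 2 ≤ d) : ∃ B : ℕ, ∀ (k F E K : Type) [Field k] [IsAlgClosed k]
    [CharZero k] [Field F] [Algebra k F] [IsFF k F] [Field E] [Algebra F E] [Field K] [Algebra F K]
    [Algebra E K] [IsScalarTower F E K] [FiniteDimensional E K] (p q : K[X]),
    ManyPrep F d B p q → ∀ (M : ℕ) (x : Fin (M + 1) → E), x ≠ 0 → coords F x = ⊤ →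
    ∀ S : Finset (MvPolynomial (Fin (M + 1)) F), S.Nonempty → (∀ G ∈ S, EtaleAt F K x G) →
    ∃ G₁ : MvPolynomial (Fin (M + 1)) F, IsForm G₁ ∧ val x G₁ ≠ 0 ∧ ∃ A : ℕ,
      ∀ (L : Type) [Field L] [Algebra k L] [Algebra F L] [IsScalarTower k F L] [IsFF k L]
        (P : Fin (M + 1) → L), OnVar F x P → val P G₁ ≠ 0 →
        {v : Place k L | MeetsAt S P v}.Finite ∧
        pht k P ≤ A * (max (canDeg k L) 0 + {v : Place k L | MeetsAt S P v}.ncard +
          Module.finrank F L) := by
  classical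
  obtain ⟨B, hB⟩ := Pool.Agent.Run7.h830.CS.vojta d hd
  refine ⟨B, ?_⟩
  intro k F E K _ _ _ _ _ _ _ _ _ _ _ _ _ p q hpq M x hx hgen S hSne hS
  have : CharZero F := charZero_of_injective_algebraMap (algebraMap k F).injective
  have : CharZero E := charZero_of_injective_algebraMap (algebraMap F E).injective
  obtain ⟨x', hx', hgen', T, hT, hlift⟩ := lift_pt (K := K) hx hgen S hS
  obtain ⟨G', hG', hG'0, A, hA⟩ := hB k F K p q hpq (M + 1) x' hx' hgen'
  obtain ⟨G₀, hG₀, hG₀0, hpt⟩ := hlift G' hG' hG'0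
  -- the bad places of `F`
  have hbad : ∃ TF : Finset (Place k F), ∀ N ∈ T, ∀ α ∈ N.support, ∀ v : Place k F,
      v ∉ TF → v.ord (N.coeff α) = 0 := by
    obtain ⟨TF, hTF⟩ := exists_supp (k := k)
      (hT.toFinset.biUnion fun N => N.support.image fun α => N.coeff α) (fun c : F => c)
    refine ⟨TF, fun N hN α hα v hv => ?_⟩
    by_contra h
    refine hv (hTF (N.coeff α) ?_ v h)
    rw [Finset.mem_biUnion]
    exact ⟨N, hT.mem_toFinset.2 hN, Finset.mem_image_of_mem _ hα⟩
  obtain ⟨TF, hTF⟩ := hbad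
  refine ⟨G₀ * ∏ G ∈ S, G, ?_, ?_, A * (TF.card + 1), ?_⟩
  · obtain ⟨e0, he0⟩ := hG₀
    have h1 : ∀ G ∈ S, ∃ e, G.IsHomogeneous e := fun G hG => by
      obtain ⟨-, e, _, _, _, _, h, -⟩ := hS G hG
      exact ⟨e, h⟩
    choose! e he using h1
    exact ⟨_, he0.mul (MvPolynomial.IsHomogeneous.prod S _ e he)⟩
  · change MvPolynomial.aeval x _ ≠ 0
    rw [map_mul, map_prod]
    exact mul_ne_zero hG₀0 (Finset.prod_ne_zero_iff.2 fun G hG => (hS G hG).1)
  intro L _ _ _ _ _ P hP hPG
  change MvPolynomial.aeval P _ ≠ 0 at hPG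
  rw [map_mul, map_prod] at hPG
  have hPG₀ : val P G₀ ≠ 0 := left_ne_zero_of_mul hPG
  have hPS : ∀ G ∈ S, val P G ≠ 0 := fun G hG =>
    Finset.prod_ne_zero_iff.1 (right_ne_zero_of_mul hPG) G hG
  have hfdL : FiniteDimensional F L := finite_of_ff (k := k)
  -- the places where `P` meets `S`
  have hfin : {v : Place k L | MeetsAt S P v}.Finite := by
    obtain ⟨G, hG⟩ := hSne
    obtain ⟨-, e, _, _, _, _, he, -⟩ := hS G hG
    obtain ⟨T1, hT1⟩ := exists_supp (k := k) Finset.univ P
    refine (T1.finite_toSet.union (finite_support (k := k) (val P G))).subset ?_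
    intro v hv
    by_contra hcon
    rw [Set.mem_union, not_or] at hcon
    have h1 := hv G hG e he (hPS G hG)
    have h2 : v.ord (val P G) = 0 := by
      by_contra h
      exact hcon.2 h
    have h3 : pord v P = 0 := Pool.Agent.Y221.AH.pord_eq_zero v hP.1 fun j => by
      by_contra h
      exact hcon.1 (hT1 j (Finset.mem_univ j) v h)
    rw [h2, h3, mul_zero] at h1
    exact lt_irrefl _ h1
  refine ⟨hfin, ?_⟩
  obtain ⟨L', _, _, _, _, P', hfd, hrk, hP', hcast, hP'G, hpres⟩ := hpt L P hP hPG₀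
  let _ : Algebra k L' := ((algebraMap F L').comp (algebraMap k F)).toAlgebra
  have tFL' : IsScalarTower k F L' := IsScalarTower.of_algebraMap_eq fun _ => rfl
  have tLL' : IsScalarTower k L L' := by
    refine IsScalarTower.of_algebraMap_eq fun a => ?_
    change algebraMap F L' (algebraMap k F a) = _
    rw [IsScalarTower.algebraMap_apply F L L', ← IsScalarTower.algebraMap_apply k F L]
  have hff : IsFF k L' := isFF_of_finite (F := L)
  obtain ⟨T2, hT2, hT2c⟩ := card_over (L := L) TF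
  have hunr : ∀ w : Place k L', under L w ∉ hfin.toFinset ∪ T2 → ram L w = 1 := by
    intro w hw
    rw [Finset.mem_union, not_or, Set.Finite.mem_toFinset] at hw
    obtain ⟨hw1, hw2⟩ := hw
    have h1 : ¬ MeetsAt S P (under L w) := hw1
    unfold MeetsAt at h1
    push Not at h1
    obtain ⟨G, hG, e, he, hG0, hGv⟩ := h1
    obtain ⟨θ, μ, a, b, hμ, hab, hθ, hgenθ, hcoef⟩ := hpres G hG e he
    refine ram_one' w rfl hμ hab hθ hgenθ fun c hc => ?_
    obtain ⟨m, N, hNT, hN, hcN⟩ := hcoef c hc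
    refine reg_of_form (under L w) hG0 hGv hN (fun α hα => ?_) hcN
    right
    rw [ord_under (F := F), hTF N hNT α hα (under F (under L w)) (fun h => hw2 ((hT2 _).1 h)),
      mul_zero]
  have hH := hurwitz_le (hfin.toFinset ∪ T2) hunr
  have hht := hA L' P' hP' hP'G
  have hm := pht_mono (k := k) hP.1 hcast
  have hrk2 : Module.finrank F L' = Module.finrank F L * Module.finrank L L' :=
    (Module.finrank_mul_finrank F L L').symm
  have hn' : (0 : ℤ) < Module.finrank L L' := by exact_mod_cast Module.finrank_pos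
  have hcard : (((hfin.toFinset ∪ T2).card : ℕ) : ℤ) ≤
      ({v : Place k L | MeetsAt S P v}.ncard : ℤ) + Module.finrank F L * TF.card := by
    have h1 := Finset.card_union_le hfin.toFinset T2
    have h2 : (((hfin.toFinset ∪ T2).card : ℕ) : ℤ) ≤ (hfin.toFinset.card : ℤ) + T2.card := by
      exact_mod_cast h1
    rw [Set.ncard_eq_toFinset_card _ hfin]
    linarith
  rw [hrk2] at hht
  set n' : ℤ := (Module.finrank L L' : ℤ) with hn'd
  set n : ℤ := (Module.finrank F L : ℤ) with hnd
  set s : ℤ := ({v : Place k L | MeetsAt S P v}.ncard : ℤ) with hs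
  set c : ℤ := ((hfin.toFinset ∪ T2).card : ℤ) with hc
  set t : ℤ := (TF.card : ℤ) with ht
  have hs0 : 0 ≤ s := Int.natCast_nonneg _
  have hn0 : 0 ≤ n := Int.natCast_nonneg _
  have ht0 : 0 ≤ t := Int.natCast_nonneg _
  have hA0 : (0 : ℤ) ≤ A := Int.natCast_nonneg _
  have hχ0 : 0 ≤ max (canDeg k L) 0 := le_max_right _ _
  have h1 : max (canDeg k L') 0 ≤ n' * (max (canDeg k L) 0 + s + n * t) := by
    refine max_le ?_ ?_
    · refine hH.trans (mul_le_mul_of_nonneg_left ?_ hn'.le)
      have := le_max_left (canDeg k L) 0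
      linarith
    · have : 0 ≤ n * t := mul_nonneg hn0 ht0
      exact mul_nonneg hn'.le (by linarith)
  have h2 : n' * pht k P ≤ n' * (A * (max (canDeg k L) 0 + s + n * t + n)) := by
    refine hm.trans (hht.trans ?_)
    push_cast
    rw [← hn'd, ← hnd]
    have h3 := mul_le_mul_of_nonneg_left h1 hA0
    have h4 : (A : ℤ) * (max (canDeg k L') 0 + n * n') =
        A * max (canDeg k L') 0 + A * (n * n') := by ring
    rw [h4]
    refine (add_le_add_left h3 _).trans (le_of_eq ?_)
    ring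
  have h3 := le_of_mul_le_mul_left h2 hn'
  refine h3.trans ?_
  push_cast
  rw [mul_assoc]
  refine mul_le_mul_of_nonneg_left ?_ hA0
  have e1 : 0 ≤ t * max (canDeg k L) 0 := mul_nonneg ht0 hχ0
  have e2 : 0 ≤ t * s := mul_nonneg ht0 hs0
  nlinarith

end Pool.Agent.Run7.h830.GN
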