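import Pool.Agent.Run7.h830.GN.Log

/-!
Degrees of curves for pairs which are dominated by a variety with a map with many preperiodic points.
-/

set_option autoImplicit false

namespace Pool.Agent.Run7.h830.GN

open Polynomial FF
open Pool.Agent.W602.GT (coords val IsForm)
open Pool.Agent.Y216 (OnVar)
open Pool.Agent.Q103.EC (ManyPrep exists_stab)
open Pool.Agent.W603.LV
open Pool.Agent.W603.PV

/-- **Degrees of the curves in pairs.** -/
theorem log_const (d : ℕ) (hd : 2 ≤ d) : ∃ B : ℕ, ∀ (k E K : Type) [Field k] [IsAlgClosed k]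
    [CharZero k] [Field E] [Algebra k E] [Field K] [Algebra k K]
    [Algebra E K] [IsScalarTower k E K] [FiniteDimensional E K] (p q : K[X]),
    ManyPrep k d B p q → ∀ (M : ℕ) (x : Fin (M + 1) → E), x ≠ 0 → coords k x = ⊤ →
    ∀ S : Finset (MvPolynomial (Fin (M + 1)) k), S.Nonempty → (∀ G ∈ S, EtaleAt k K x G) →
    ∃ G₁ : MvPolynomial (Fin (M + 1)) k, IsForm G₁ ∧ val x G₁ ≠ 0 ∧ ∃ A : ℕ,
      ∀ (L : Type) [Field L] [Algebra k L] [IsFF k L]
        (P : Fin (M + 1) → L), OnVar k x P → val P G₁ ≠ 0 →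
        {v : Place k L | MeetsAt S P v}.Finite ∧
        pht k P ≤ A * max (canDeg k L + {v : Place k L | MeetsAt S P v}.ncard) 0 := by
  classical
  obtain ⟨B, hB⟩ := Pool.Agent.Q41.GT.c_dcb d hd
  refine ⟨max (3 * d + 7) B, ?_⟩
  intro k E K _ _ _ _ _ _ _ _ _ _ p q hpq M x hx hgen S hSne hS
  have : CharZero E := charZero_of_injective_algebraMap (algebraMap k E).injective
  obtain ⟨p', q', Q', hp', hq', hco, hst, hcard, halg⟩ := exists_stab hd (le_max_left _ _) hpq
  obtain ⟨x', hx', hgen', T, hT, hlift⟩ := lift_pt (K := K) hx hgen S hS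
  obtain ⟨G', hG', hG'0, A, hA⟩ := hB k K p' q' hp' hq' hco Q' hst ((le_max_right _ _).trans hcard)
    halg (M + 1) x' hx' hgen'
  obtain ⟨G₀, hG₀, hG₀0, hpt⟩ := hlift G' hG' hG'0
  refine ⟨G₀ * ∏ G ∈ S, G, ?_, ?_, A, ?_⟩
  · obtain ⟨e0, he0⟩ := hG₀
    have h1 : ∀ G ∈ S, ∃ e, G.IsHomogeneous e := fun G hG => by
      obtain ⟨-, e, _, _, _, _, h, -⟩ := hS G hG
      exact ⟨e, h⟩
    choose! e he using h1
    exact ⟨_, he0.mul (MvPolynomial.IsHomogeneous.prod S _ e he)⟩
  · change MvPolynomial.aeval x _ ≠ 0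
    rw [map_mul, map_prod]
    exact mul_ne_zero hG₀0 (Finset.prod_ne_zero_iff.2 fun G hG => (hS G hG).1)
  intro L _ _ _ P hP hPG
  change MvPolynomial.aeval P _ ≠ 0 at hPG
  rw [map_mul, map_prod] at hPG
  have hPG₀ : val P G₀ ≠ 0 := left_ne_zero_of_mul hPG
  have hPS : ∀ G ∈ S, val P G ≠ 0 := fun G hG =>
    Finset.prod_ne_zero_iff.1 (right_ne_zero_of_mul hPG) G hG
  have hfin : {v : Place k L | MeetsAt S P v}.Finite := by
    obtain ⟨G, hG⟩ := hSne
    obtain ⟨-, e, _, _, _, _, he, -⟩ := hS G hG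
    obtain ⟨T1, hT1⟩ := exists_supp (k := k) Finset.univ P
    refine (T1.finite_toSet.union (finite_support (k := k) (val P G))).subset ?_
    intro v hv
    by_contra hcon
    rw [Set.mem_union, not_or] at hcon
    have h1 := hv G hG e he (hPS G hG)
    have h2 : v.ord (val P G) = 0 := by
      by_contra h
      exact hcon.2 h
    have h3 : pord v P = 0 := Pool.Agent.Y221.AH.pord_eq_zero v hP.1 fun j => by
      by_contra h
      exact hcon.1 (hT1 j (Finset.mem_univ j) v h)
    rw [h2, h3, mul_zero] at h1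
    exact lt_irrefl _ h1
  refine ⟨hfin, ?_⟩
  obtain ⟨L', _, _, _, _, P', hfd, hrk, hP', hcast, hP'G, hpres⟩ := hpt L P hP hPG₀
  have hff : IsFF k L' := isFF_of_finite (F := L)
  have hunr : ∀ w : Place k L', under L w ∉ hfin.toFinset → ram L w = 1 := by
    intro w hw
    rw [Set.Finite.mem_toFinset] at hw
    have h1 : ¬ MeetsAt S P (under L w) := hw
    unfold MeetsAt at h1
    push Not at h1
    obtain ⟨G, hG, e, he, hG0, hGv⟩ := h1
    obtain ⟨θ, μ, a, b, hμ, hab, hθ, hgenθ, hcoef⟩ := hpres G hG e he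
    refine ram_one' w rfl hμ hab hθ hgenθ fun c hc => ?_
    obtain ⟨m, N, hNT, hN, hcN⟩ := hcoef c hc
    exact reg_of_form (under L w) hG0 hGv hN (fun α hα => Ge.const _) hcN
  have hH := hurwitz_le hfin.toFinset hunr
  rw [← Set.ncard_eq_toFinset_card _ hfin] at hH
  have hht := hA L' P' hP' hP'G
  have hm := pht_mono (k := k) hP.1 hcast
  have hn' : (0 : ℤ) < Module.finrank L L' := by exact_mod_cast Module.finrank_pos
  set n' : ℤ := (Module.finrank L L' : ℤ) with hn'd
  set s : ℤ := ({v : Place k L | MeetsAt S P v}.ncard : ℤ) with hs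
  have hA0 : (0 : ℤ) ≤ A := Int.natCast_nonneg _
  have h1 : max (canDeg k L') 0 ≤ n' * max (canDeg k L + s) 0 := by
    refine max_le ?_ ?_
    · exact hH.trans (mul_le_mul_of_nonneg_left (le_max_left _ _) hn'.le)
    · exact mul_nonneg hn'.le (le_max_right _ _)
  have h2 : n' * pht k P ≤ n' * (A * max (canDeg k L + s) 0) := by
    refine hm.trans (hht.trans ?_)
    refine (mul_le_mul_of_nonneg_left h1 hA0).trans (le_of_eq ?_)
    ring
  exact le_of_mul_le_mul_left h2 hn'

end Pool.Agent.Run7.h830.GN
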