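import Pool.Agent.Q209.GT.Spec

/-!
Specialisation in a finite extension of the function field of a variety.
-/

set_option autoImplicit false

namespace Pool.Agent.Run7.h830.GN

open Polynomial
open Pool.Agent.Q209.GT (spec lift_poly)

/-- **Specialisation in a finite extension.** -/
theorem spec_ext {k E K : Type} [Field k] [Field E] [Algebra k E] [Field K] [Algebra k K]
    [Algebra E K] [IsScalarTower k E K] [FiniteDimensional E K] [Algebra.IsSeparable E K]
    {σ : Type} {y : σ → E} (hy : IntermediateField.adjoin k (Set.range y) = ⊤) {Θ : Set K}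
    (hΘ : Θ.Finite) :
    ∃ H : MvPolynomial σ k, MvPolynomial.aeval y H ≠ 0 ∧
      ∀ (L : Type) [Field L] [Algebra k L] (z : σ → L),
        (∀ G : MvPolynomial σ k, MvPolynomial.aeval y G = 0 → MvPolynomial.aeval z G = 0) →
        MvPolynomial.aeval z H ≠ 0 →
        ∃ (L' : Type) (_ : Field L') (_ : Algebra k L') (_ : Algebra L L')
          (_ : IsScalarTower k L L') (B : Type) (_ : CommRing B) (_ : Algebra k B)
          (α : B →ₐ[k] K) (β : B →ₐ[k] L'), FiniteDimensional L L' ∧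
          Module.finrank L L' ≤ Module.finrank E K ∧ Function.Injective α ∧
          (∀ i, ∃ b, α b = algebraMap E K (y i) ∧ β b = algebraMap L L' (z i)) ∧
          ∀ θ ∈ Θ, θ ∈ Set.range α := by
  classical
  obtain ⟨θ, hθ⟩ := Field.exists_primitive_element E K
  set pb : PowerBasis E K := Field.powerBasisOfFiniteOfSeparable E K with hpb
  have hlift : ∀ x : K, ∃ f : E[X], x = aeval pb.gen f := pb.exists_eq_aeval'
  choose F hF using hlift
  have hint : IsIntegral E pb.gen := pb.isIntegral_gen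
  set μ : E[X] := minpoly E pb.gen with hμ
  have hμdeg : μ.natDegree = Module.finrank E K := by
    rw [hμ, pb.natDegree_minpoly, pb.finrank]
  have hμmonic : μ.Monic := minpoly.monic hint
  obtain ⟨H, hH, hspec⟩ := spec hy (Θ := (↑μ.coeffs : Set E) ∪ ⋃ x ∈ Θ, (↑(F x).coeffs : Set E))
    ((Finset.finite_toSet _).union (hΘ.biUnion fun x _ => Finset.finite_toSet _))
  refine ⟨H, hH, fun L _ _ z hz hzH => ?_⟩
  obtain ⟨B0, _, _, α0, β0, hα0, hxy, hrange⟩ := hspec L z hz hzH
  obtain ⟨μ0, hμ0'⟩ := lift_poly (α0 : B0 →+* E) (p := μ) fun c hc => hrange c (Or.inl hc)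
  have hμ0 : μ0.map (α0 : B0 →+* E) = μ := hμ0'
  have hα0' : Function.Injective (α0 : B0 →+* E) := hα0
  have hmonic : μ0.Monic := by
    rw [hα0'.monic_map_iff, hμ0]
    exact hμmonic
  -- the extension of the curve
  have hdegL : (μ0.map (β0 : B0 →+* L)).natDegree = Module.finrank E K := by
    rw [hmonic.natDegree_map, ← hμdeg, ← hμ0, hmonic.natDegree_map]
  have hpos : 0 < Module.finrank E K := Module.finrank_pos
  obtain ⟨f, hf, hfμ⟩ := Polynomial.exists_irreducible_of_natDegree_pos (f := μ0.map (β0 : B0 →+* L))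
    (by rw [hdegL]; exact hpos)
  have hfact : Fact (Irreducible f) := ⟨hf⟩
  have hμL0 : μ0.map (β0 : B0 →+* L) ≠ 0 := (hmonic.map _).ne_zero
  have hroot : (μ0.map (β0 : B0 →+* L)).eval₂ (algebraMap L (AdjoinRoot f)) (AdjoinRoot.root f) = 0 := by
    obtain ⟨g, hg⟩ := hfμ
    rw [hg, Polynomial.eval₂_mul]
    have : f.eval₂ (algebraMap L (AdjoinRoot f)) (AdjoinRoot.root f) = 0 := AdjoinRoot.eval₂_root f
    rw [this, zero_mul]
  let αk : B0 →ₐ[k] K := (IsScalarTower.toAlgHom k E K).comp α0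
  let βk : B0 →ₐ[k] AdjoinRoot f := (IsScalarTower.toAlgHom k L (AdjoinRoot f)).comp β0
  have hα1 : μ0.eval₂ (αk : B0 →+* K) pb.gen = 0 := by
    have h1 : aeval pb.gen (μ0.map (α0 : B0 →+* E)) = 0 := by rw [hμ0]; exact minpoly.aeval _ _
    rw [aeval_def, eval₂_map] at h1
    exact h1
  have hβ1 : μ0.eval₂ (βk : B0 →+* AdjoinRoot f) (AdjoinRoot.root f) = 0 := by
    rw [eval₂_map] at hroot
    exact hroot
  let α : AdjoinRoot μ0 →ₐ[k] K := AdjoinRoot.liftAlgHom μ0 αk pb.gen hα1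
  let β : AdjoinRoot μ0 →ₐ[k] AdjoinRoot f := AdjoinRoot.liftAlgHom μ0 βk (AdjoinRoot.root f) hβ1
  have hαmk : ∀ g : B0[X], α (AdjoinRoot.mk μ0 g) = aeval pb.gen (g.map (α0 : B0 →+* E)) := by
    intro g
    have h1 : α (AdjoinRoot.mk μ0 g) = g.eval₂ (αk : B0 →+* K) pb.gen := rfl
    rw [h1, aeval_def, eval₂_map]
    rfl
  refine ⟨AdjoinRoot f, inferInstance, inferInstance, inferInstance, inferInstance, AdjoinRoot μ0,
    inferInstance, inferInstance, α, β, ?_, ?_, ?_, ?_, ?_⟩
  · exact (AdjoinRoot.powerBasis hf.ne_zero).finite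
  · rw [(AdjoinRoot.powerBasis hf.ne_zero).finrank, AdjoinRoot.powerBasis_dim, ← hdegL]
    exact Polynomial.natDegree_le_of_dvd hfμ hμL0
  · rw [injective_iff_map_eq_zero]
    intro b hb
    obtain ⟨g, rfl⟩ := AdjoinRoot.mk_surjective b
    rw [hαmk] at hb
    have h1 : μ ∣ g.map (α0 : B0 →+* E) := minpoly.dvd _ _ hb
    rw [← hμ0, Polynomial.map_dvd_map _ hα0' hmonic] at h1
    exact AdjoinRoot.mk_eq_zero.2 h1
  · intro i
    obtain ⟨b, hb1, hb2⟩ := hxy i
    refine ⟨AdjoinRoot.of μ0 b, ?_, ?_⟩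
    · have h1 : α (AdjoinRoot.of μ0 b) = αk b := by
        change α (AdjoinRoot.mk μ0 (C b)) = _
        rw [hαmk, Polynomial.map_C, aeval_C]
        rfl
      rw [h1]
      change algebraMap E K (α0 b) = _
      rw [hb1]
    · have h1 : β (AdjoinRoot.of μ0 b) = βk b := by
        change (C b).eval₂ (βk : B0 →+* AdjoinRoot f) (AdjoinRoot.root f) = _
        rw [eval₂_C]
        rfl
      rw [h1]
      change algebraMap L (AdjoinRoot f) (β0 b) = _
      rw [hb2]
  · intro x hx
    obtain ⟨g, hg'⟩ := lift_poly (α0 : B0 →+* E) (p := F x) fun c hc => hrange c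
      (Or.inr (Set.mem_biUnion hx hc))
    have hg : g.map (α0 : B0 →+* E) = F x := hg'
    exact ⟨AdjoinRoot.mk μ0 g, by rw [hαmk, hg]; exact (hF x).symm⟩

end Pool.Agent.Run7.h830.GN
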