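import Pool.Agent.Run7.h830.GN.Const
import Pool.Agent.Run7.h830.GN.Spec

/-!
Curves of bounded gonality on varieties dominated by a variety which carries a map with many
preperiodic points.
-/

set_option autoImplicit false

namespace Pool.Agent.Run7.h830.GN

open Polynomial
open Pool.Agent.Q41.SU (Stab)
open Pool.Agent.Q41.GT (crs)
open Pool.Agent.W602.GT (coords val IsForm)
open Pool.Agent.Y216 (OnVar)
open Pool.Agent.Q209.GT

/-- **Specialisation of the stable set in a finite extension.** -/
theorem main_ext {k E K : Type} [Field k] [Field E] [Algebra k E] [Field K] [Algebra k K]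
    [Algebra E K] [IsScalarTower k E K] [FiniteDimensional E K] [Algebra.IsSeparable E K]
    {d : ℕ} (hd : 1 ≤ d) {p q : K[X]}
    (hp : p.natDegree ≤ d) (hq : q.natDegree = d) (hc : IsCoprime p q) {P : Finset K}
    (hS : Stab p q P) (halg : Algebra.IsAlgebraic (IntermediateField.adjoin k (crs P)) K)
    {M : ℕ} {x : Fin (M + 1) → E} (hx : x ≠ 0) (hgen : coords k x = ⊤) :
    ∃ (i1 : Fin (M + 1)) (G : MvPolynomial (Fin (M + 1)) k) (D : Fin (M + 1) → ℕ)
      (g : Fin (M + 1) → ℕ → MvPolynomial (crs P) k), IsForm G ∧ val x G ≠ 0 ∧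
      ∀ (L : Type) [Field L] [Algebra k L] (f : Fin (M + 1) → L), OnVar k x f → val f G ≠ 0 →
        f i1 ≠ 0 ∧ ∃ (L' : Type) (_ : Field L') (_ : Algebra k L') (_ : Algebra L L')
          (_ : IsScalarTower k L L') (p' q' : L'[X]) (P' : Finset L') (c' : crs P → L'),
          FiniteDimensional L L' ∧ Module.finrank L L' ≤ Module.finrank E K ∧
          p'.natDegree ≤ d ∧
          q'.natDegree = d ∧ IsCoprime p' q' ∧ Stab p' q' P' ∧ P'.card = P.card ∧
          (∀ c, c' c ∈ crs P') ∧ ∀ i, MvPolynomial.aeval c' (g i (D i)) ≠ 0 ∧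
            ∑ j ∈ Finset.range (D i + 1), MvPolynomial.aeval c' (g i j) *
              (algebraMap L L' (f i / f i1)) ^ j = 0 := by
  classical
  obtain ⟨i1, hi1'⟩ := Function.ne_iff.1 hx
  have hi1 : x i1 ≠ 0 := hi1'
  obtain ⟨u, v, huv⟩ := hc
  choose D g hg1 hg2 using fun i => alg_eqn (S := crs P)
    (halg.isAlgebraic (algebraMap E K (x i / x i1)))
  obtain ⟨H, hH, hspec⟩ := spec_ext (K := K) (Pool.Agent.TH466.QG.adjoin_norm hgen hi1)
    (Θ := Dat p q u v P ∪ Set.range fun i =>
      (MvPolynomial.aeval (Subtype.val : crs P → K) (g i (D i)))⁻¹)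
    ((dat_finite p q u v P).union (Set.finite_range _))
  refine ⟨i1, MvPolynomial.X i1 * Pool.Agent.TH466.QG.hz i1 H, D, g, ?_, ?_, ?_⟩
  · obtain ⟨e, he⟩ := Pool.Agent.TH466.QG.hz_form i1 H
    exact ⟨1 + e, (MvPolynomial.isHomogeneous_X k i1).mul he⟩
  · change MvPolynomial.aeval x _ ≠ 0
    rw [map_mul, MvPolynomial.aeval_X]
    refine mul_ne_zero hi1 ?_
    change val x _ ≠ 0
    rw [Pool.Agent.TH466.QG.val_hz H hi1]
    exact mul_ne_zero (pow_ne_zero _ hi1) hH
  intro L _ _ z hz hzR
  change MvPolynomial.aeval z _ ≠ 0 at hzR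
  rw [map_mul, MvPolynomial.aeval_X] at hzR
  have hz1 : z i1 ≠ 0 := left_ne_zero_of_mul hzR
  have hzH : MvPolynomial.aeval (fun i => z i / z i1) H ≠ 0 := by
    have h1 : val z (Pool.Agent.TH466.QG.hz i1 H) ≠ 0 := right_ne_zero_of_mul hzR
    rw [Pool.Agent.TH466.QG.val_hz H hz1] at h1
    exact right_ne_zero_of_mul h1
  have hsp : ∀ G : MvPolynomial (Fin (M + 1)) k,
      MvPolynomial.aeval (fun i => x i / x i1) G = 0 →
      MvPolynomial.aeval (fun i => z i / z i1) G = 0 := by
    intro G hG
    have h1 : val x (Pool.Agent.TH466.QG.hz i1 G) = 0 := by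
      rw [Pool.Agent.TH466.QG.val_hz G hi1, hG, mul_zero]
    have h2 := hz.2 _ (Pool.Agent.TH466.QG.hz_form i1 G) h1
    rw [Pool.Agent.TH466.QG.val_hz G hz1] at h2
    exact (mul_eq_zero.1 h2).resolve_left (pow_ne_zero _ hz1)
  obtain ⟨L', _, _, _, _, B, _, _, α, β, hfd, hrk, hα, hxy, hΘ⟩ :=
    hspec L (fun i => z i / z i1) hsp hzH
  refine ⟨hz1, L', inferInstance, inferInstance, inferInstance, inferInstance, ?_⟩
  obtain ⟨p', q', P', hp', hq', hc', hS', hcard, hcr⟩ := stab_trans (α : B →+* K) (β : B →+* L') hα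
    hd hp hq huv hS (fun a ha => hΘ a (Or.inl ha))
  choose b hb1 hb2 using hcr
  refine ⟨p', q', P', fun c => β (b c.1 c.2), hfd, hrk, hp', hq', hc', hS', hcard,
    fun c => hb2 c.1 c.2, fun i => ?_⟩
  have hev1 : ∀ G : MvPolynomial (crs P) k,
      α (MvPolynomial.aeval (fun c : crs P => b c.1 c.2) G) =
        MvPolynomial.aeval (Subtype.val : crs P → K) G := by
    intro G
    rw [← AlgHom.comp_apply, MvPolynomial.comp_aeval]
    congr 1
    congr 1
    funext c
    exact hb1 c.1 c.2
  have hev2 : ∀ G : MvPolynomial (crs P) k,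
      β (MvPolynomial.aeval (fun c : crs P => b c.1 c.2) G) =
        MvPolynomial.aeval (fun c : crs P => β (b c.1 c.2)) G := by
    intro G
    rw [← AlgHom.comp_apply, MvPolynomial.comp_aeval]
  constructor
  · rw [← hev2]
    refine unit_ne (α : B →+* K) (β : B →+* L') hα ?_ ?_
    · change α _ ≠ 0
      rw [hev1]
      exact hg1 i
    · change (α _)⁻¹ ∈ Set.range α
      rw [hev1]
      exact hΘ _ (Or.inr ⟨i, rfl⟩)
  · obtain ⟨w, hw1, hw2⟩ := hxy i
    have h1 : ∑ j ∈ Finset.range (D i + 1),
        MvPolynomial.aeval (fun c : crs P => b c.1 c.2) (g i j) * w ^ j = 0 := by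
      apply hα
      rw [map_sum, map_zero, ← hg2 i]
      refine Finset.sum_congr rfl fun j _ => ?_
      rw [map_mul, map_pow, hev1, hw1]
    have h2 := congrArg β h1
    rw [map_sum, map_zero] at h2
    rw [← h2]
    refine Finset.sum_congr rfl fun j _ => ?_
    rw [map_mul, map_pow, hev2, hw2]

/-- `L` is generated by a field `k(t)` of rational functions with degree at most `γ`: the gonality of
the curve with the function field `L` is at most `γ` -/
def Gon (k : Type) [Field k] (γ : ℕ) (L : Type) [Field L] [Algebra k L] : Prop :=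
  ∃ t : L, Transcendental k t ∧ FiniteDimensional (IntermediateField.adjoin k {t}) L ∧
    Module.finrank (IntermediateField.adjoin k {t}) L ≤ γ

/-- gonality in extensions -/
theorem Gon.ext {k L L' : Type} [Field k] [Field L] [Algebra k L] [Field L'] [Algebra k L']
    [Algebra L L'] [IsScalarTower k L L'] [FiniteDimensional L L'] {γ : ℕ} (h : Gon k γ L) :
    Gon k (γ * Module.finrank L L') L' := by
  obtain ⟨t, ht, hfd, hrk⟩ := h
  let F : IntermediateField k L := IntermediateField.adjoin k {t}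
  have hmap : F.map (IsScalarTower.toAlgHom k L L') =
      IntermediateField.adjoin k {algebraMap L L' t} := by
    rw [IntermediateField.adjoin_map, Set.image_singleton]
    rfl
  have hfd1 : FiniteDimensional F L' := Module.Finite.trans (R := F) L L'
  have hrk1 : Module.finrank F L' = Module.finrank F L * Module.finrank L L' :=
    (Module.finrank_mul_finrank F L L').symm
  let e : F ≃ₐ[k] F.map (IsScalarTower.toAlgHom k L L') :=
    F.equivMap (IsScalarTower.toAlgHom k L L')
  have hcomm : (algebraMap (F.map (IsScalarTower.toAlgHom k L L')) L').comp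
      (e : F ≃+* F.map (IsScalarTower.toAlgHom k L L')).toRingHom =
      (RingEquiv.refl L').toRingHom.comp (algebraMap F L') := by
    ext a
    rfl
  have hrk2 := Algebra.finrank_eq_of_equiv_equiv
    (e : F ≃+* F.map (IsScalarTower.toAlgHom k L L')) (RingEquiv.refl L') hcomm
  have hpos : 0 < Module.finrank F L' := Module.finrank_pos
  refine ⟨algebraMap L L' t, ?_, ?_, ?_⟩
  · exact (transcendental_algebraMap_iff (algebraMap L L').injective).2 ht
  · rw [← hmap]
    apply Module.finite_of_finrank_pos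
    rw [← hrk2]
    exact hpos
  · rw [← hmap, ← hrk2, hrk1]
    exact Nat.mul_le_mul_right _ hrk

end Pool.Agent.Run7.h830.GN
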