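import Pool.Agent.Run7.h830.GN.Fin
import Pool.Agent.Q41.GT.Ah

/-!
Points of bounded gonality on varieties over function fields.
-/

set_option autoImplicit false

namespace Pool.Agent.Run7.h830.GN

open Polynomial FF
open Pool.Agent.Q41.SU (Stab)
open Pool.Agent.Q41.GT (crs)
open Pool.Agent.W602.GT (coords val IsForm)
open Pool.Agent.Y216 (OnVar)
open Pool.Agent.Q209.GT
open Pool.Agent.Q103.EC (ManyPrep exists_stab)
open Pool.Agent.W603.LV (hgt hgt_root hgt_nonneg)
open Pool.Agent.W603.PV (pht pht_le hgt_mvpolyF hgt_algebraMap hgt_algebraic)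

/-- **Points of bounded gonality have bounded height.** -/
theorem bddh (d : ℕ) (hd : 2 ≤ d) (r γ : ℕ) : ∃ B : ℕ, ∀ (k F E K : Type) [Field k] [IsAlgClosed k]
    [CharZero k] [Field F] [Algebra k F] [IsFF k F] [Field E] [Algebra F E] [Field K] [Algebra F K]
    [Algebra E K] [IsScalarTower F E K] [FiniteDimensional E K], Module.finrank E K ≤ r →
    ∀ p q : K[X], ManyPrep F d B p q →
    ∀ (M : ℕ) (x : Fin (M + 1) → E), x ≠ 0 → coords F x = ⊤ →
    ∃ G : MvPolynomial (Fin (M + 1)) F, IsForm G ∧ val x G ≠ 0 ∧ ∃ A : ℕ,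
      ∀ (L : Type) [Field L] [Algebra k L] [Algebra F L] [IsScalarTower k F L] [IsFF k L]
        (v : Fin (M + 1) → L), Gon k γ L → OnVar F x v → val v G ≠ 0 →
        pht k v ≤ A * Module.finrank F L := by
  classical
  obtain ⟨B, hB⟩ := const (γ * r) d hd
  refine ⟨max (3 * d + 7) B, ?_⟩
  intro k F E K _ _ _ _ _ _ _ _ _ _ _ _ _ hrk p q hpq M x hx hgen
  have : CharZero F := charZero_of_injective_algebraMap (algebraMap k F).injective
  have : CharZero E := charZero_of_injective_algebraMap (algebraMap F E).injective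
  obtain ⟨p', q', P', hp', hq', hco, hst, hcard, halg⟩ := exists_stab hd (le_max_left _ _) hpq
  obtain ⟨i1, G, D, g, hG, hxG, hmain⟩ := main_ext (by omega) hp' hq' hco hst halg hx hgen
  have : Fintype (crs P') := (crs_finite P').fintype
  obtain ⟨H, hH⟩ : ∃ H : Fin (M + 1) → ℕ → ℕ, H = fun i j =>
    ∑ α ∈ (g i j).support, (hgt k ((g i j).coeff α)).toNat := ⟨_, rfl⟩
  refine ⟨G, hG, hxG, ∑ i, ∑ j ∈ Finset.range (D i + 1), H i j, ?_⟩
  intro L _ _ _ _ _ v hgon hv hvG
  obtain ⟨hv1, L', _, _, _, _, p2, q2, P2, c', hfd, hrk', hp2, hq2, hco2, hst2, hcard2, hcr, hrel⟩ :=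
    hmain L v hv hvG
  let _ : Algebra k L' := ((algebraMap F L').comp (algebraMap k F)).toAlgebra
  have tFL' : IsScalarTower k F L' := IsScalarTower.of_algebraMap_eq fun _ => rfl
  have tLL' : IsScalarTower k L L' := by
    refine IsScalarTower.of_algebraMap_eq fun a => ?_
    change algebraMap F L' (algebraMap k F a) = _
    rw [IsScalarTower.algebraMap_apply F L L', ← IsScalarTower.algebraMap_apply k F L]
  obtain ⟨t, ht, htf, htr⟩ := (hgon.ext (L' := L')).mono
    (Nat.mul_le_mul_left γ (hrk'.trans hrk))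
  have hconst := hB k L' t ht htf htr p2 q2 hp2 hq2 hco2 P2 hst2
    ((le_max_right _ _).trans (hcard.trans hcard2.ge))
  have hc0 : ∀ c : crs P', ∃ a : k, algebraMap k L' a = c' c := fun c =>
    minpoly.mem_range_of_degree_eq_one k _ (IsAlgClosed.degree_eq_one_of_irreducible k
      (minpoly.irreducible (hconst _ (hcr c)).isIntegral))
  choose a ha using hc0
  set e : Fin (M + 1) → ℕ → L := fun i j =>
    MvPolynomial.aeval (fun c : crs P' => algebraMap k L (a c)) (g i j) with he
  have hmap : ∀ i j, algebraMap L L' (e i j) = MvPolynomial.aeval c' (g i j) := by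
    intro i j
    have h1 : (IsScalarTower.toAlgHom F L L') (e i j) =
        MvPolynomial.aeval (fun c : crs P' => (IsScalarTower.toAlgHom F L L')
          (algebraMap k L (a c))) (g i j) := by
      rw [he, ← AlgHom.comp_apply, MvPolynomial.comp_aeval]
    have h2 : (fun c : crs P' => (IsScalarTower.toAlgHom F L L') (algebraMap k L (a c))) = c' := by
      funext c
      rw [← ha c, IsScalarTower.algebraMap_apply k L L']
      rfl
    rw [h2] at h1
    exact h1
  have hinj := (algebraMap L L').injective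
  have he0 : ∀ i, e i (D i) ≠ 0 := by
    intro i h0
    apply (hrel i).1
    rw [← hmap, h0, map_zero]
  have hrel' : ∀ i, ∑ j ∈ Finset.range (D i + 1), e i j * (v i / v i1) ^ j = 0 := by
    intro i
    apply hinj
    rw [map_sum, map_zero, ← (hrel i).2]
    refine Finset.sum_congr rfl fun j _ => ?_
    rw [map_mul, map_pow, hmap]
  set n : ℤ := (Module.finrank F L : ℤ) with hn
  have h2 : ∀ i j, hgt k (e i j) ≤ (H i j : ℤ) * n := by
    intro i j
    refine (hgt_mvpolyF (k := k) (fun c : crs P' => algebraMap k L (a c)) (g i j)).trans ?_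
    have h3 : ∑ c : crs P', hgt k (algebraMap k L (a c)) = 0 :=
      Finset.sum_eq_zero fun c _ => hgt_algebraic (isAlgebraic_algebraMap (a c))
    rw [h3, mul_zero, zero_add, hH]
    push_cast
    rw [Finset.sum_mul]
    refine Finset.sum_le_sum fun α _ => ?_
    rw [hgt_algebraMap, Int.toNat_of_nonneg (hgt_nonneg _)]
    exact le_of_eq (mul_comm _ _)
  have h4 : ∀ i, hgt k (v i / v i1) ≤ (∑ j ∈ Finset.range (D i + 1), H i j : ℕ) * n := by
    intro i
    refine (hgt_root (k := k) (fun j => e i j) (he0 i) _ (hrel' i)).trans ?_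
    rw [add_comm, ← Finset.sum_range_succ (fun j => hgt k (e i j))]
    push_cast
    rw [Finset.sum_mul]
    exact Finset.sum_le_sum fun j _ => h2 i j
  refine (pht_le (k := k) v hv1).trans ((Finset.sum_le_sum fun j _ => h4 j).trans (le_of_eq ?_))
  rw [← Finset.sum_mul]
  push_cast
  rfl

end Pool.Agent.Run7.h830.GN
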