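import Pool.Agent.Q209.GT.Spec

/-!
Specialisation in a finite extension of the function field of a variety, with more data.
-/

set_option autoImplicit false

namespace Pool.Agent.Run7.h830.GN

open Polynomial
open Pool.Agent.Q209.GT (spec lift_poly)

/-- **Specialisation in a finite extension**, with a generator `τ`. -/
theorem spec_gen {k E K : Type} [Field k] [Field E] [Algebra k E] [Field K] [Algebra k K]
    [Algebra E K] [IsScalarTower k E K] [FiniteDimensional E K] [Algebra.IsSeparable E K]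
    {σ : Type} {y : σ → E} (hy : IntermediateField.adjoin k (Set.range y) = ⊤) :
    ∃ τ : K, (∀ f : K, ∃ g : E[X], f = aeval τ g) ∧ ∀ (Ξ : Set E) (_ : Ξ.Finite) (Θ : Set K)
      (_ : Θ.Finite), ∃ H : MvPolynomial σ k, MvPolynomial.aeval y H ≠ 0 ∧
      ∀ (L : Type) [Field L] [Algebra k L] (z : σ → L),
        (∀ G : MvPolynomial σ k, MvPolynomial.aeval y G = 0 → MvPolynomial.aeval z G = 0) →
        MvPolynomial.aeval z H ≠ 0 →
        ∃ (L' : Type) (_ : Field L') (_ : Algebra k L') (_ : Algebra L L')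
          (_ : IsScalarTower k L L') (B₀ : Type) (_ : CommRing B₀) (_ : Algebra k B₀)
          (B : Type) (_ : CommRing B) (_ : Algebra k B)
          (α₀ : B₀ →ₐ[k] E) (β₀ : B₀ →ₐ[k] L) (ι : B₀ →ₐ[k] B)
          (α : B →ₐ[k] K) (β : B →ₐ[k] L') (t : B), FiniteDimensional L L' ∧
          Module.finrank L L' ≤ Module.finrank E K ∧
          Function.Injective α₀ ∧ Function.Injective α ∧
          (∀ b, α (ι b) = algebraMap E K (α₀ b)) ∧ (∀ b, β (ι b) = algebraMap L L' (β₀ b)) ∧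
          (∀ i, ∃ b, α₀ b = y i ∧ β₀ b = z i) ∧
          (∀ e ∈ Ξ, e ∈ Set.range α₀) ∧ (∀ θ ∈ Θ, θ ∈ Set.range α) ∧ α t = τ ∧
          ∀ f : L', ∃ g : L[X], f = aeval (β t) g := by
  classical
  set pb : PowerBasis E K := Field.powerBasisOfFiniteOfSeparable E K with hpb
  have hlift : ∀ x : K, ∃ f : E[X], x = aeval pb.gen f := pb.exists_eq_aeval'
  choose F hF using hlift
  have hint : IsIntegral E pb.gen := pb.isIntegral_gen
  set μ : E[X] := minpoly E pb.gen with hμ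
  have hμdeg : μ.natDegree = Module.finrank E K := by
    rw [hμ, pb.natDegree_minpoly, pb.finrank]
  have hμmonic : μ.Monic := minpoly.monic hint
  refine ⟨pb.gen, fun f => ⟨F f, hF f⟩, fun Ξ hΞ Θ hΘ => ?_⟩
  obtain ⟨H, hH, hspec⟩ := spec hy
    (Θ := ((↑μ.coeffs : Set E) ∪ ⋃ x ∈ Θ, (↑(F x).coeffs : Set E)) ∪ Ξ)
    (((Finset.finite_toSet _).union (hΘ.biUnion fun x _ => Finset.finite_toSet _)).union hΞ)
  refine ⟨H, hH, fun L _ _ z hz hzH => ?_⟩
  obtain ⟨B0, _, _, α0, β0, hα0, hxy, hrange⟩ := hspec L z hz hzH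
  obtain ⟨μ0, hμ0'⟩ := lift_poly (α0 : B0 →+* E) (p := μ) fun c hc =>
    hrange c (Or.inl (Or.inl hc))
  have hμ0 : μ0.map (α0 : B0 →+* E) = μ := hμ0'
  have hα0' : Function.Injective (α0 : B0 →+* E) := hα0
  have hmonic : μ0.Monic := by
    rw [hα0'.monic_map_iff, hμ0]
    exact hμmonic
  have hdegL : (μ0.map (β0 : B0 →+* L)).natDegree = Module.finrank E K := by
    rw [hmonic.natDegree_map, ← hμdeg, ← hμ0, hmonic.natDegree_map]
  have hpos : 0 < Module.finrank E K := Module.finrank_pos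
  obtain ⟨f, hf, hfμ⟩ := Polynomial.exists_irreducible_of_natDegree_pos (f := μ0.map (β0 : B0 →+* L))
    (by rw [hdegL]; exact hpos)
  have hfact : Fact (Irreducible f) := ⟨hf⟩
  have hμL0 : μ0.map (β0 : B0 →+* L) ≠ 0 := (hmonic.map _).ne_zero
  have hroot : (μ0.map (β0 : B0 →+* L)).eval₂ (algebraMap L (AdjoinRoot f)) (AdjoinRoot.root f) = 0 := by
    obtain ⟨g, hg⟩ := hfμ
    rw [hg, Polynomial.eval₂_mul]
    have : f.eval₂ (algebraMap L (AdjoinRoot f)) (AdjoinRoot.root f) = 0 := AdjoinRoot.eval₂_root f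
    rw [this, zero_mul]
  let αk : B0 →ₐ[k] K := (IsScalarTower.toAlgHom k E K).comp α0
  let βk : B0 →ₐ[k] AdjoinRoot f := (IsScalarTower.toAlgHom k L (AdjoinRoot f)).comp β0
  have hα1 : μ0.eval₂ (αk : B0 →+* K) pb.gen = 0 := by
    have h1 : aeval pb.gen (μ0.map (α0 : B0 →+* E)) = 0 := by rw [hμ0]; exact minpoly.aeval _ _
    rw [aeval_def, eval₂_map] at h1
    exact h1
  have hβ1 : μ0.eval₂ (βk : B0 →+* AdjoinRoot f) (AdjoinRoot.root f) = 0 := by
    rw [eval₂_map] at hroot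
    exact hroot
  let α : AdjoinRoot μ0 →ₐ[k] K := AdjoinRoot.liftAlgHom μ0 αk pb.gen hα1
  let β : AdjoinRoot μ0 →ₐ[k] AdjoinRoot f := AdjoinRoot.liftAlgHom μ0 βk (AdjoinRoot.root f) hβ1
  let ι : B0 →ₐ[k] AdjoinRoot μ0 := AdjoinRoot.ofAlgHom k μ0
  have hαmk : ∀ g : B0[X], α (AdjoinRoot.mk μ0 g) = aeval pb.gen (g.map (α0 : B0 →+* E)) := by
    intro g
    have h1 : α (AdjoinRoot.mk μ0 g) = g.eval₂ (αk : B0 →+* K) pb.gen := rfl
    rw [h1, aeval_def, eval₂_map]
    rfl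
  refine ⟨AdjoinRoot f, inferInstance, inferInstance, inferInstance, inferInstance, B0,
    inferInstance, inferInstance, AdjoinRoot μ0, inferInstance, inferInstance, α0, β0, ι, α, β,
    AdjoinRoot.root μ0, (AdjoinRoot.powerBasis hf.ne_zero).finite, ?_, hα0, ?_, ?_, ?_, hxy,
    fun e he => hrange e (Or.inr he), ?_, ?_, ?_⟩
  · rw [(AdjoinRoot.powerBasis hf.ne_zero).finrank, AdjoinRoot.powerBasis_dim, ← hdegL]
    exact Polynomial.natDegree_le_of_dvd hfμ hμL0
  · rw [injective_iff_map_eq_zero]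
    intro b hb
    obtain ⟨g, rfl⟩ := AdjoinRoot.mk_surjective b
    rw [hαmk] at hb
    have h1 : μ ∣ g.map (α0 : B0 →+* E) := minpoly.dvd _ _ hb
    rw [← hμ0, Polynomial.map_dvd_map _ hα0' hmonic] at h1
    exact AdjoinRoot.mk_eq_zero.2 h1
  · intro b
    change α (AdjoinRoot.mk μ0 (C b)) = _
    rw [hαmk, Polynomial.map_C, aeval_C]
    rfl
  · intro b
    change (C b).eval₂ (βk : B0 →+* AdjoinRoot f) (AdjoinRoot.root f) = _
    rw [eval₂_C]
    rfl
  · intro x hx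
    obtain ⟨g, hg'⟩ := lift_poly (α0 : B0 →+* E) (p := F x) fun c hc => hrange c
      (Or.inl (Or.inr (Set.mem_biUnion hx hc)))
    have hg : g.map (α0 : B0 →+* E) = F x := hg'
    exact ⟨AdjoinRoot.mk μ0 g, by rw [hαmk, hg]; exact (hF x).symm⟩
  · change α (AdjoinRoot.mk μ0 X) = _
    rw [hαmk, Polynomial.map_X, aeval_X]
  · intro x
    obtain ⟨g, rfl⟩ := AdjoinRoot.mk_surjective x
    refine ⟨g, ?_⟩
    have h1 : β (AdjoinRoot.root μ0) = AdjoinRoot.root f := by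
      change (X : B0[X]).eval₂ (βk : B0 →+* AdjoinRoot f) (AdjoinRoot.root f) = _
      rw [eval₂_X]
    rw [h1, AdjoinRoot.aeval_eq]

end Pool.Agent.Run7.h830.GN
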