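import Pool.Agent.Run7.h830.GN.LogC
import Pool.Agent.Run7.h830.GN.Fin
import Pool.Agent.Run7.h830.CS.Deg

/-!
Degrees of the curves in surfaces which are dominated by a surface with a map with many preperiodic points.
-/

set_option autoImplicit false

namespace Pool.Agent.Run7.h830.GN

open Polynomial FF
open Pool.Agent.W602.GT (coords val IsForm)
open Pool.Agent.Y216 (OnVar)
open Pool.Agent.Q103.EC (ManyPrep)
open Pool.Agent.Q103.SF (van nonconst_of_low)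
open Pool.Agent.Q271.RC (Nonconst)
open Pool.Agent.W603.LV
open Pool.Agent.W603.PV
open Pool.Agent.Run7.h830.CS (pht_eq canDeg_ge_neg_two)

/-- a finite set of curves has bounded degrees -/
theorem deg_fin {M : ℕ} {E : Type} [Field E] [Algebra ℂ E] (x : Fin (M + 1) → E)
    {C : Set (Set (MvPolynomial (Fin (M + 1)) ℂ))} (hC : C.Finite) :
    ∃ b : ℕ, ∀ (L : Type) [Field L] [Algebra ℂ L] [IsFF ℂ L] (v : Fin (M + 1) → L), OnVar ℂ x v →
      coords ℂ v = ⊤ → van v ∈ C → pht ℂ v ≤ b := by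
  classical
  have hlow : ∀ V : Set (MvPolynomial (Fin (M + 1)) ℂ), ∃ b : ℕ, ∀ (L : Type) [Field L]
      [Algebra ℂ L] [IsFF ℂ L] (v : Fin (M + 1) → L), OnVar ℂ x v → coords ℂ v = ⊤ → van v = V →
      pht ℂ v ≤ b := by
    intro V
    by_cases h : ∃ (L : Type) (_ : Field L) (_ : Algebra ℂ L) (_ : IsFF ℂ L)
        (v : Fin (M + 1) → L), OnVar ℂ x v ∧ coords ℂ v = ⊤ ∧ van v = V
    · obtain ⟨L0, _, _, _, v0, hv0, hg0, rfl⟩ := h
      refine ⟨(pht ℂ v0).toNat, fun L _ _ _ v hv hg hV => ?_⟩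
      rw [pht_eq hv.1 hg hg0 hV]
      exact Int.self_le_toNat _
    · exact ⟨0, fun L _ _ _ v hv hg hV => absurd ⟨L, _, _, ‹_›, v, hv, hg, hV⟩ h⟩
  choose b hb using hlow
  refine ⟨∑ V ∈ hC.toFinset, b V, fun L _ _ _ v hv hg hV => ?_⟩
  refine (hb _ L v hv hg rfl).trans ?_
  exact_mod_cast Finset.single_le_sum (f := b) (fun _ _ => Nat.zero_le _) (hC.mem_toFinset.2 hV)

/-- the places where a curve meets a closed set which does not contain it -/
theorem finite_meets {k F L : Type} [Field k] [Field F] [Field L] [Algebra k L]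
    [CharZero k] [IsFF k L] [Algebra F L] {M : ℕ} {S : Finset (MvPolynomial (Fin (M + 1)) F)}
    (hS : ∀ G ∈ S, IsForm G) {P : Fin (M + 1) → L} (hP : ∃ j, P j ≠ 0)
    (h : ∃ G ∈ S, val P G ≠ 0) : {v : Place k L | MeetsAt S P v}.Finite := by
  obtain ⟨G, hG, hG0⟩ := h
  obtain ⟨e, he⟩ := hS G hG
  obtain ⟨T1, hT1⟩ := exists_supp (k := k) Finset.univ P
  refine (T1.finite_toSet.union (finite_support (k := k) (val P G))).subset ?_
  intro v hv
  by_contra hcon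
  rw [Set.mem_union, not_or] at hcon
  have h1 := hv G hG e he hG0
  have h2 : v.ord (val P G) = 0 := by
    by_contra h
    exact hcon.2 h
  have h3 : pord v P = 0 := Pool.Agent.Y221.AH.pord_eq_zero v hP fun j => by
    by_contra h
    exact hcon.1 (hT1 j (Finset.mem_univ j) v h)
  rw [h2, h3, mul_zero] at h1
  exact lt_irrefl _ h1

/-- **Degrees of the curves in covered surfaces.** -/
theorem surf_log (d : ℕ) (hd : 2 ≤ d) : ∃ B₀ : ℕ, ∀ (E K : Type) [Field E] [Algebra ℂ E]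
    [Field K] [Algebra ℂ K] [Algebra E K] [IsScalarTower ℂ E K] [FiniteDimensional E K]
    (p q : K[X]), ManyPrep ℂ d B₀ p q → Algebra.trdeg ℂ E = (2 : ℕ) →
    ∀ (M : ℕ) (x : Fin (M + 1) → E), x ≠ 0 → coords ℂ x = ⊤ →
    ∀ S : Finset (MvPolynomial (Fin (M + 1)) ℂ), S.Nonempty → (∀ G ∈ S, EtaleAt ℂ K x G) →
    ∃ A B : ℕ, ∀ (L : Type) [Field L] [Algebra ℂ L] [IsFF ℂ L] (v : Fin (M + 1) → L),
      OnVar ℂ x v → coords ℂ v = ⊤ →
      ((∃ G ∈ S, val v G ≠ 0) → {w : Place ℂ L | MeetsAt S v w}.Finite) ∧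
      pht ℂ v ≤ A * (canDeg ℂ L + {w : Place ℂ L | MeetsAt S v w}.ncard) + B := by
  obtain ⟨B₀, hB⟩ := log_const d hd
  refine ⟨B₀, ?_⟩
  intro E K _ _ _ _ _ _ _ p q hpq htr M x hx hgen S hSne hS
  obtain ⟨G₁, hG₁, hxG₁, A, hA⟩ := hB ℂ E K p q hpq M x hx hgen S hSne hS
  obtain ⟨e, he⟩ := hG₁
  obtain ⟨b, hb⟩ := deg_fin x (Pool.Agent.Q96.HE.finite_curves htr le_rfl G₁ he hxG₁)
  refine ⟨A, b + 2 * A, ?_⟩
  intro L _ _ _ v hv hg
  have hform : ∀ G ∈ S, IsForm G := fun G hG => by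
    obtain ⟨-, e, _, _, _, _, h, -⟩ := hS G hG
    exact ⟨e, h⟩
  refine ⟨fun h => finite_meets hform hv.1 h, ?_⟩
  have hc := canDeg_ge_neg_two (L := L)
  have hA0 : (0 : ℤ) ≤ A := Int.natCast_nonneg _
  set s : ℤ := ({w : Place ℂ L | MeetsAt S v w}.ncard : ℤ) with hs
  have hs0 : 0 ≤ s := Int.natCast_nonneg _
  have hb0 : (0 : ℤ) ≤ b := Int.natCast_nonneg _
  have hA2 : (A : ℤ) * (-2) ≤ A * (canDeg ℂ L + s) :=
    mul_le_mul_of_nonneg_left (by linarith) hA0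
  by_cases h0 : val v G₁ = 0
  · have h1 := hb L v hv hg ⟨L, inferInstance, inferInstance, v, fun G D hG hGx => hv.2 G ⟨D, hG⟩ hGx,
      h0, nonconst_of_low hv hg, rfl⟩
    push_cast
    linarith
  · have h1 := (hA L v hv h0).2
    rw [← hs] at h1
    have h2 : max (canDeg ℂ L + s) 0 ≤ canDeg ℂ L + s + 2 := max_le (by linarith) (by linarith)
    have h3 := mul_le_mul_of_nonneg_left h2 hA0
    push_cast
    linarith

end Pool.Agent.Run7.h830.GN
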